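import Pool.Agent.P.MP_3d36e1_mp.Lc.Link

/-! Convexity of the root for small exponents. -/

set_option autoImplicit false

namespace Pool.Agent.P.MP_3d36e1_mp.G

open Set Filter Topology Lc

variable (X : Rad)

/-- `r` times the effective attraction -/
noncomputable def DD (r : ℝ) : ℝ := X.w r - r * X.y r - X.μ * r

/-- derivative of `DD` -/
noncomputable def D1 (r : ℝ) : ℝ := X.v r - X.y r + X.q * (r * (X.g r * X.y r)) - X.μ

lemma dD (r : ℝ) (hr : 0 < r) : HasDerivAt (DD X) (D1 X r) r :=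
  (((X.dw r hr).fun_sub ((hasDerivAt_id' r).fun_mul (X.dy r hr))).fun_sub
    ((hasDerivAt_id' r).const_mul X.μ)).congr_deriv (by unfold D1; ring)

lemma dD1 (r : ℝ) (hr : 0 < r) : HasDerivAt (D1 X) (4 * Real.pi * r * X.ψ r ^ 2 +
    X.q * X.y r * (DD X r / X.A + (1 - X.q) * (r * X.g r ^ 2))) r := by
  have := X.hA
  refine ((((X.dv r hr).fun_sub (X.dy r hr)).fun_add (((hasDerivAt_id' r).fun_mul
    ((X.dk0 r hr).fun_mul (X.dy r hr))).const_mul X.q)).sub_const X.μ).congr_deriv ?_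
  unfold DD Rad.k Rad.W
  field_simp
  ring

lemma DD_le {r : ℝ} (hr : 0 < r) : DD X r ≤ X.z := by
  have h1 := X.wle r hr
  have h2 := mul_pos hr (X.ypos hr)
  have h3 := mul_nonneg X.hμ hr.le
  unfold DD
  linarith

lemma D1_nonpos (hq : X.q ≤ 1) {a : ℝ} (ha : 0 < a) (h : 0 < DD X a) : D1 X a ≤ 0 := by
  by_contra hn
  push Not at hn
  have step : ∀ t, a ≤ t → (∀ s, a ≤ s → s < t → 0 < DD X s) → D1 X a ≤ D1 X t := fun t ht hs =>
    mono ha ht (dD1 X) fun s h1 h2 => by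
      have h3 := ha.trans_le h1
      have h4 := hs s h1 h2
      have h5 := X.ypos h3
      have h6 := X.hq
      have h7 := X.hA
      have h8 := sub_nonneg.2 hq
      positivity
  have key := stay ha (fun s hs => (dD X s hs).continuousAt) fun t ht hs =>
    h.trans_le (mono ha ht (dD X) fun s h1 h2 =>
      hn.le.trans (step s h1 fun u h3 h4 => hs u h3 (h4.trans h2)))
  obtain ⟨r, h1, h2⟩ := sink ha hn (fun r hr => (dD X r (ha.trans_le hr)).fun_neg)
    (fun r hr => neg_le_neg (step r hr fun s h1 _ => key s h1)) (-X.z)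
  have := DD_le X (ha.trans_le h1)
  linarith

lemma DD_pos (hq : X.q ≤ 1) {s r : ℝ} (hs : 0 < s) (hsr : s ≤ r) (h : 0 < DD X r) : 0 < DD X s := by
  by_contra hn
  push Not at hn
  have hlt : s < r := lt_of_le_of_ne hsr (by rintro rfl; linarith)
  obtain ⟨c, h1, h2, h3⟩ := up_cross hs hlt (dD X) (hn.trans (half_pos h).le) (half_lt_self h)
  exact absurd (D1_nonpos X hq (hs.trans_le h1) ((half_pos h).trans_le h2)) (not_le.2 h3)

theorem second_nonneg (hq : X.q ≤ 1) {r : ℝ} (hr : 0 < r) : 0 ≤ X.k r + X.g r ^ 2 := by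
  have hA := X.hA
  have hψ := X.pos r hr
  have e : ∀ s, 0 < s → 2 * (s ^ 2 * (X.g s * X.ψ s)) - s ^ 2 * (X.ψ s * DD X s / X.A) =
      s ^ 3 * X.ψ s * (X.k s + X.g s ^ 2) := fun s hs => by
    unfold DD Rad.k Rad.W
    field_simp
    ring
  refine (mul_nonneg_iff_of_pos_left (show 0 < r ^ 3 * X.ψ r by positivity)).1 ?_
  rw [← e r hr]
  rcases le_or_gt (DD X r) 0 with h | h
  · have h1 := X.g_nonneg hr
    have h2 : 0 ≤ r ^ 2 * (X.ψ r * -DD X r / X.A) := by
      have := neg_nonneg.2 h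
      positivity
    have h3 : 0 ≤ r ^ 2 * (X.g r * X.ψ r) := by positivity
    have h4 : r ^ 2 * (X.ψ r * -DD X r / X.A) = -(r ^ 2 * (X.ψ r * DD X r / X.A)) := by ring
    linarith
  · obtain ⟨δ, C, hδ, hC⟩ := X.near
    have dT : ∀ s, 0 < s → HasDerivAt
        (fun s => 2 * (s ^ 2 * (X.g s * X.ψ s)) - s ^ 2 * (X.ψ s * DD X s / X.A))
        (s ^ 2 * X.ψ s * (X.g s * DD X s + -D1 X s) / X.A) s := fun s hs => by
      refine (((X.dh s hs).const_mul 2).fun_sub (((hasDerivAt_id' s).fun_pow 2).fun_mul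
        (((X.dψ s hs).fun_mul (dD X s hs)).div_const X.A))).congr_deriv ?_
      unfold DD Rad.W
      push_cast
      field_simp
      ring
    have hl : Tendsto (fun s : ℝ => -(s ^ 2 * (C * X.z / X.A))) (𝓝[>] 0) (𝓝 0) := by
      have : Continuous fun s : ℝ => -(s ^ 2 * (C * X.z / X.A)) := by fun_prop
      simpa using (this.tendsto 0).mono_left nhdsWithin_le_nhds
    refine le_of_tendsto hl ?_
    filter_upwards [Ioc_mem_nhdsGT hr, Ioc_mem_nhdsGT hδ] with s hs hs'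
    refine le_trans ?_ (mono (f := fun s => 2 * (s ^ 2 * (X.g s * X.ψ s)) -
      s ^ 2 * (X.ψ s * DD X s / X.A)) hs.1 hs.2 dT fun u h1 h2 => ?_)
    · have h1 := X.g_nonneg hs.1
      have h2 := X.pos s hs.1
      have h3 : 0 ≤ s ^ 2 * (X.g s * X.ψ s) := by positivity
      have h4 : X.ψ s * DD X s ≤ C * X.z := mul_le_mul (hC s hs.1 hs'.2).1 (DD_le X hs.1)
        (DD_pos X hq hs.1 hs.2 h).le (h2.le.trans (hC s hs.1 hs'.2).1)
      have h5 : s ^ 2 * (X.ψ s * DD X s / X.A) ≤ s ^ 2 * (C * X.z / X.A) := by gcongr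
      linarith
    · have h3 := hs.1.trans_le h1
      have h4 := DD_pos X hq h3 h2.le h
      have h5 := neg_nonneg.2 (D1_nonpos X hq h3 h4)
      have h6 := X.g_nonneg h3
      have h7 := X.pos u h3
      positivity

theorem convex (hq : X.q ≤ 1) {Ψ : ℝ → ℝ} (e : ∀ r, 0 < r → Ψ r = X.ψ r)
    (hc : ContinuousOn Ψ (Ici 0)) : ConvexOn ℝ (Ici 0) Ψ := by
  refine convexOn_of_hasDerivWithinAt2_nonneg (f' := fun r => -(X.g r * X.ψ r))
    (f'' := fun r => X.ψ r * (X.k r + X.g r ^ 2)) (convex_Ici 0) hc ?_ ?_ ?_ <;> rw [interior_Ici]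
  · exact fun r hr =>
      ((X.dψ r hr).congr_of_eventuallyEq ((lt_mem_nhds hr).mono e)).hasDerivWithinAt
  · exact fun r hr =>
      (((X.dk0 r hr).fun_mul (X.dψ r hr)).fun_neg.congr_deriv (by ring)).hasDerivWithinAt
  · exact fun r hr => mul_nonneg (X.pos r hr).le (second_nonneg X hq hr)

end Pool.Agent.P.MP_3d36e1_mp.G
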