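import Pool.Agent.P.MP_97b9bc_mp.T.TCOU
import Pool.Agent.P.MP_97b9bc_mp.T.TSOB
import Pool.Agent.P.MP_97b9bc_mp.T.TABS
import Pool.Agent.P.MP_97b9bc_mp.T.TBIL
import Pool.Agent.P.MP_97b9bc_mp.T.TINT
import Pool.Agent.P.MP_97b9bc_mp.T.TVAR
import Pool.Agent.P.MP_97b9bc_mp.T.TEL

/-! The Euler-Lagrange equation for every exponent above one. -/

set_option autoImplicit false

namespace Pool.Agent.P.MP_3d36e1_mp.G

open MeasureTheory Set Filter Topology
open MP_97b9bc_mp.T hiding Lam coef Weak Clas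

lemma adm53 {p lam : ℝ} {ρ : R3 → ℝ} {g : R3 → R3} (h : Admissible p lam ρ g) : Adm lam ρ g :=
  have h1 := p_SOB p_COU ρ g ⟨h.nonneg, h.L1, h.grad, h.grad_L2⟩
  ⟨h1.nonneg, h1.grad, h1.grad_L2, h1.L1, h1.Lp, h1.coulomb, h.mass⟩

lemma tay_d1 {p : ℝ} (hp : 1 < p) (t : ℝ) :
    HasDerivAt (fun t : ℝ => (t ^ 2) ^ p) (2 * p * (t * (t ^ 2) ^ (p - 1))) t :=
  (((hasDerivAt_id' t).fun_pow 2).rpow_const (Or.inr hp.le)).congr_deriv (by push_cast; ring)

lemma tay_d2 {p : ℝ} (hp : 1 < p) (t : ℝ) :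
    HasDerivAt (fun t : ℝ => t * (t ^ 2) ^ (p - 1)) ((2 * p - 1) * (t ^ 2) ^ (p - 1)) t := by
  rcases eq_or_ne t 0 with rfl | ht
  · have hc : Continuous fun t : ℝ => (t ^ 2) ^ (p - 1) :=
      (continuous_id.pow 2).rpow_const fun _ => Or.inr (by linarith)
    have e : ((0 : ℝ) ^ 2) ^ (p - 1) = 0 := by
      rw [zero_pow two_ne_zero, Real.zero_rpow (by linarith)]
    rw [hasDerivAt_iff_tendsto_slope, e, mul_zero]
    have h1 := (hc.tendsto 0).mono_left (nhdsWithin_le_nhds (s := {0}ᶜ))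
    rw [e] at h1
    refine h1.congr' ?_
    filter_upwards [self_mem_nhdsWithin] with t ht
    have h2 : t ≠ 0 := ht
    rw [slope_def_field]
    field_simp
    ring
  · have h2 : t ^ 2 ≠ 0 := pow_ne_zero 2 ht
    refine ((hasDerivAt_id' t).fun_mul
      (((hasDerivAt_id' t).fun_pow 2).rpow_const (p := p - 1) (Or.inl h2))).congr_deriv ?_
    rw [Real.rpow_sub_one h2 (p - 1)]
    push_cast
    field_simp
    ring

lemma tay_bd {p a x : ℝ} (hp : 1 < p) (ha : 0 ≤ a) (hx0 : 0 ≤ x) (hx : x ≤ 2 * a + 2) :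
    x ^ (p - 1) ≤ 4 ^ (p - 1) * (1 + a ^ p) := by
  have h4 : (0 : ℝ) < 4 ^ (p - 1) := Real.rpow_pos_of_pos (by norm_num) _
  have hap := Real.rpow_nonneg ha p
  rcases le_total a 1 with h | h
  · have := Real.rpow_le_rpow hx0 (show x ≤ 4 by linarith) (show 0 ≤ p - 1 by linarith)
    nlinarith
  · have h1 := Real.rpow_le_rpow hx0 (show x ≤ 4 * a by linarith) (show 0 ≤ p - 1 by linarith)
    rw [Real.mul_rpow (by norm_num) ha] at h1
    have h2 : a ^ (p - 1) ≤ a ^ p := Real.rpow_le_rpow_of_exponent_le h (by linarith)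
    nlinarith

theorem tay {p : ℝ} (hp : 1 < p) : ∃ C : ℝ, ∀ a b : ℝ, 0 ≤ a → |b| ≤ 1 →
    ((√a + b) ^ 2) ^ p ≤ a ^ p + 2 * p * (a ^ (p - 1) * (√a * b)) + C * (b ^ 2 * (1 + a ^ p)) := by
  refine ⟨p * (2 * p - 1) * 4 ^ (p - 1), fun a b ha hb => ?_⟩
  set K := p * (2 * p - 1) * 4 ^ (p - 1) * (1 + a ^ p) with hK
  have hs := Real.sq_sqrt ha
  set s := √a with hsd
  have hb' := abs_le.1 hb
  have d1 : ∀ t : ℝ, HasDerivAt
      (fun t => ((s + t) ^ 2) ^ p - 2 * p * (s * (s ^ 2) ^ (p - 1)) * t - K * t ^ 2)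
      (2 * p * ((s + t) * ((s + t) ^ 2) ^ (p - 1)) - 2 * p * (s * (s ^ 2) ^ (p - 1)) -
        2 * K * t) t := fun t =>
    ((((tay_d1 hp (s + t)).comp_const_add s t).fun_sub
      ((hasDerivAt_id' t).const_mul _)).fun_sub
      (((hasDerivAt_id' t).fun_pow 2).const_mul K)).congr_deriv (by push_cast; ring)
  have d2 : ∀ t : ℝ, HasDerivAt
      (fun t => 2 * p * ((s + t) * ((s + t) ^ 2) ^ (p - 1)) - 2 * p * (s * (s ^ 2) ^ (p - 1)) -
        2 * K * t) (2 * p * ((2 * p - 1) * ((s + t) ^ 2) ^ (p - 1)) - 2 * K) t := fun t =>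
    (((((tay_d2 hp (s + t)).comp_const_add s t).const_mul (2 * p)).sub_const _).fun_sub
      ((hasDerivAt_id' t).const_mul (2 * K))).congr_deriv (by ring)
  have d3 : ∀ t : ℝ, -1 ≤ t → t ≤ 1 →
      2 * p * ((2 * p - 1) * ((s + t) ^ 2) ^ (p - 1)) - 2 * K ≤ 0 := fun t h1 h2 => by
    have h3 := tay_bd hp ha (sq_nonneg (s + t)) (by nlinarith [sq_nonneg (s - t)])
    have h4 := mul_le_mul_of_nonneg_left h3 (show 0 ≤ 2 * p * (2 * p - 1) by nlinarith)
    rw [hK]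
    linarith
  have key : ((s + b) ^ 2) ^ p - 2 * p * (s * (s ^ 2) ^ (p - 1)) * b - K * b ^ 2 ≤
      ((s + 0) ^ 2) ^ p - 2 * p * (s * (s ^ 2) ^ (p - 1)) * 0 - K * 0 ^ 2 := by
    rcases le_total 0 b with h | h
    · refine anti' h (fun t _ _ => d1 t) fun t h1 h2 => ?_
      have := anti' h1 (fun u _ _ => d2 u) fun u h3 h4 => d3 u (by linarith) (by linarith)
      simpa using this
    · have := anti' h (fun t _ _ => (d1 t).fun_neg) fun t h1 h2 => by
        have := anti' h2 (fun u _ _ => d2 u) fun u h3 h4 => d3 u (by linarith) (by linarith)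
        simp only [add_zero, sub_self, mul_zero] at this
        linarith
      linarith
  rw [add_zero, hs] at key
  rw [hK] at key
  linarith

/-- half of the first variation of the energy -/
noncomputable def Lam (A γ p z : ℝ) (ρ : R3 → ℝ) (g : R3 → R3) (η : R3 → ℝ) : ℝ :=
  A * (∫ x, inner ℝ (g x) (gradient η x)) +
    ∫ x, (γ * ρ x ^ (p - 1) - z / ‖x‖ + pot ρ x) * (√(ρ x) * η x)

lemma pow_half {p a : ℝ} (hp : 1 < p) (ha : 0 ≤ a) : a ^ (p - 1) * √a ≤ 1 + a ^ p := by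
  rw [Real.sqrt_eq_rpow, ← Real.rpow_add' ha (by linarith)]
  have h0 := Real.rpow_nonneg ha p
  rcases le_total a 1 with h | h
  · linarith [Real.rpow_le_one ha h (show 0 ≤ p - 1 + 1 / 2 by linarith)]
  · linarith [Real.rpow_le_rpow_of_exponent_le h (show p - 1 + 1 / 2 ≤ p by linarith)]

lemma int_w {p lam : ℝ} (hp : 1 < p) {ρ : R3 → ℝ} {g : R3 → R3} (h : Admissible p lam ρ g)
    {τ : R3 → ℝ} (hc : Continuous τ) (hs : HasCompactSupport τ) :
    Integrable fun x => τ x * (1 + ρ x ^ p) := by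
  obtain ⟨M, hM⟩ := hc.bounded_above_of_compact_support hs
  have t3 : Integrable fun x => τ x * ρ x ^ p :=
    (h.integrable_rpow (by linarith)).bdd_mul (c := M) hc.aestronglyMeasurable
      (Eventually.of_forall hM)
  simpa only [mul_add, mul_one, Pi.add_def] using (hc.integrable_of_hasCompactSupport hs).add t3

lemma int_p {p lam : ℝ} (hp : 1 < p) {ρ : R3 → ℝ} {g : R3 → R3} (h : Admissible p lam ρ g)
    {η : R3 → ℝ} (hη : Test η) : Integrable fun x => ρ x ^ (p - 1) * (√(ρ x) * η x) := by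
  have hσ := (p_INT p_COU lam ρ g η (adm53 h) hη).2.1
  refine (int_w hp h hη.1.continuous.norm hη.2.norm).mono'
    (((h.L1.aestronglyMeasurable.aemeasurable.pow_const _).aestronglyMeasurable).mul
      hσ.aestronglyMeasurable) (Eventually.of_forall fun x => ?_)
  have h2 : 0 ≤ ρ x ^ (p - 1) * √(ρ x) :=
    mul_nonneg (Real.rpow_nonneg (h.nonneg x) _) (Real.sqrt_nonneg _)
  rw [← mul_assoc, norm_mul, Real.norm_of_nonneg h2, mul_comm]
  exact mul_le_mul_of_nonneg_left (pow_half hp (h.nonneg x)) (norm_nonneg _)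

theorem var {A γ p z lam : ℝ} {ρ : R3 → ℝ} {g : R3 → R3} {η : R3 → ℝ} (hp : 1 < p) (hA : 0 < A)
    (hγ : 0 < γ) (hz : 0 < z) (h : Admissible p lam ρ g)
    (hmin : ∀ ρ' g', Admissible p lam ρ' g' → energy A γ p z ρ g ≤ energy A γ p z ρ' g')
    (hη : Test η) (hm : ∀ᶠ t in 𝓝[>] (0 : ℝ), ∫ x, (√(ρ x) + t * η x) ^ 2 ≤ lam) :
    0 ≤ Lam A γ p z ρ g η := by
  have hp0 : 0 < p := by linarith
  obtain ⟨C, hTAY⟩ := tay hp
  have h5 := adm53 h
  obtain ⟨-, i2, i3, -, i5, i6, i7⟩ := p_INT p_COU lam ρ g η h5 hη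
  have i4 := int_p hp h hη
  have hc := hη.1.continuous
  obtain ⟨M, hM⟩ := hc.bounded_above_of_compact_support hη.2
  have hM0 : 0 ≤ M := (norm_nonneg _).trans (hM 0)
  have hτc : Continuous fun x => η x ^ 2 := hc.pow 2
  have hτs : HasCompactSupport fun x => η x ^ 2 := by
    have := hη.2.mul_left (f := η)
    simpa only [sq, Pi.mul_def] using this
  have t1 : Integrable fun x => η x ^ 2 := hτc.integrable_of_hasCompactSupport hτs
  have t2 : MemLp (fun x => η x ^ 2) (ENNReal.ofReal (5 / 3)) :=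
    hτc.memLp_of_hasCompactSupport hτs
  have t4 : Integrable fun x => η x ^ 2 * (1 + ρ x ^ p) := int_w hp h hτc hτs
  have r1 := h.integrable_rpow hp0
  have r2 := integrable_V (by norm_num) hz h.nonneg h.L1 (h5.integrable_rpow (by norm_num))
  obtain ⟨c0, c1, c2, hq⟩ := p_BIL p_COU ρ (fun x => 2 * (√(ρ x) * η x)) (fun x => η x ^ 2) h.L1
    h5.Lp (i2.const_mul 2) (i3.const_mul 2) t1 t2
  have eP : ∫ x, 2 * (√(ρ x) * η x) * pot ρ x = 2 * ∫ x, pot ρ x * (√(ρ x) * η x) := by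
    rw [← integral_const_mul]
    exact integral_congr_ae (Eventually.of_forall fun x => by ring)
  have eL := (var_int3 (F := fun x => (γ * ρ x ^ (p - 1) - z / ‖x‖ + pot ρ x) *
    (√(ρ x) * η x)) i4 i5 i6 γ (-z) 1 fun x => by ring).2
  have hs : ∀ᶠ t in 𝓝[>] (0 : ℝ), t * M ≤ 1 := by
    have h1 : Continuous fun t : ℝ => t * M := by fun_prop
    have h2 := (h1.tendsto 0).mono_left (nhdsWithin_le_nhds (s := Ioi 0))
    rw [zero_mul] at h2
    exact h2.eventually (eventually_le_nhds one_pos)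
  refine var_lim (a0 := A * (∫ x, ‖gradient η x‖ ^ 2) +
    γ / p * (C * ∫ x, η x ^ 2 * (1 + ρ x ^ p)) - z * (∫ x, 1 / ‖x‖ * η x ^ 2) + c0 / 2)
    (a1 := c1 / 2) (a2 := c2 / 2) ?_
  filter_upwards [hm, hs, self_mem_nhdsWithin] with t ht htM ht0
  have ht1 : 0 < t := ht0
  obtain ⟨g', hr, hk⟩ := p_ABS ρ g η t (Adm.root h5) hη
  have ha := p_SOB p_COU _ g' hr
  have eT := var_int3 (F := fun x => ρ x ^ p +
    2 * p * (ρ x ^ (p - 1) * (√(ρ x) * (t * η x))) + C * ((t * η x) ^ 2 * (1 + ρ x ^ p)))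
    r1 i4 t4 1 (2 * p * t) (C * t ^ 2) fun x => by ring
  have hb : ∀ x, ((√(ρ x) + t * η x) ^ 2) ^ p ≤ _ := fun x =>
    hTAY (ρ x) (t * η x) (h.nonneg x) (by
      rw [abs_mul, abs_of_pos ht1]
      exact (mul_le_mul_of_nonneg_left (hM x) ht1.le).trans htM)
  have hi : Integrable fun x => ((√(ρ x) + t * η x) ^ 2) ^ p :=
    eT.1.mono' (ha.L1.1.aemeasurable.pow_const _).aestronglyMeasurable
      (Eventually.of_forall fun x => by
        rw [Real.norm_of_nonneg (Real.rpow_nonneg (sq_nonneg _) _)]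
        exact hb x)
  have ha' : Admissible p lam (fun x => (√(ρ x) + t * η x) ^ 2) g' :=
    ⟨ha.nonneg, ha.grad, ha.grad_L2, ha.L1, memLp_of_rpow hp0 ha.nonneg ha.L1.1 hi, ha.coulomb, ht⟩
  have hmin := hmin _ g' ha'
  have e : ∀ x, (√(ρ x) + t * η x) ^ 2 =
      ρ x + t * (2 * (√(ρ x) * η x)) + t ^ 2 * η x ^ 2 := fun x => by
    have := Real.sq_sqrt (h.nonneg x)
    linear_combination this
  have eN := (var_int3 (F := fun x => z / ‖x‖ * (√(ρ x) + t * η x) ^ 2) r2 i5 i7 1 (2 * t * z)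
    (t ^ 2 * z) fun x => by rw [e x]; ring).2
  have hT := (integral_mono hi eT.1 hb).trans_eq eT.2
  have eC := (integral_congr_ae (f := fun q : R3 × R3 => (√(ρ q.1) + t * η q.1) ^ 2 *
    (√(ρ q.2) + t * η q.2) ^ 2 / ‖q.1 - q.2‖) (Eventually.of_forall fun q => by
      simp only [e])).trans (hq t)
  unfold energy at hmin
  unfold Lam
  rw [eN, eC, eP] at hmin
  rw [eL]
  have k1 := mul_le_mul_of_nonneg_left hk hA.le
  have k2 := mul_le_mul_of_nonneg_left hT (by positivity : 0 ≤ γ / p)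
  have k3 : γ / p * (2 * p * t * ∫ x, ρ x ^ (p - 1) * (√(ρ x) * η x)) =
      2 * t * (γ * ∫ x, ρ x ^ (p - 1) * (√(ρ x) * η x)) := by field_simp
  linarith

lemma int_V {p lam : ℝ} (hp : 1 < p) {ρ : R3 → ℝ} {g : R3 → R3} (h : Admissible p lam ρ g)
    (γ z : ℝ) {η : R3 → ℝ} (hη : Test η) :
    Integrable fun x => (γ * ρ x ^ (p - 1) - z / ‖x‖ + pot ρ x) * (√(ρ x) * η x) := by
  obtain ⟨-, -, -, -, h2, h3, -⟩ := p_INT p_COU lam ρ g η (adm53 h) hη
  refine ((((int_p hp h hη).const_mul γ).sub (h2.const_mul z)).add h3).congr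
    (Eventually.of_forall fun x => ?_)
  simp only [Pi.add_apply, Pi.sub_apply]
  ring

lemma Lam_lin {p lam : ℝ} (hp : 1 < p) {ρ : R3 → ℝ} {g : R3 → R3} (h : Admissible p lam ρ g)
    (A γ z : ℝ) {η ξ : R3 → ℝ} (hη : Test η) (hξ : Test ξ) (a c : ℝ) :
    Lam A γ p z ρ g (fun x => a * η x + c * ξ x) =
      a * Lam A γ p z ρ g η + c * Lam A γ p z ρ g ξ := by
  have e1 : ∫ x, inner ℝ (g x) (gradient (fun x => a * η x + c * ξ x) x) =
      a * (∫ x, inner ℝ (g x) (gradient η x)) + c * ∫ x, inner ℝ (g x) (gradient ξ x) := by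
    rw [← integral_const_mul, ← integral_const_mul, ← integral_add
      ((p_INT p_COU lam ρ g η (adm53 h) hη).1.const_mul a)
      ((p_INT p_COU lam ρ g ξ (adm53 h) hξ).1.const_mul c)]
    refine integral_congr_ae (Eventually.of_forall fun x => ?_)
    simp only [el_grad hη hξ, inner_add_right, inner_smul_right]
  have e2 : ∫ x, (γ * ρ x ^ (p - 1) - z / ‖x‖ + pot ρ x) * (√(ρ x) * (a * η x + c * ξ x)) =
      a * (∫ x, (γ * ρ x ^ (p - 1) - z / ‖x‖ + pot ρ x) * (√(ρ x) * η x)) +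
        c * ∫ x, (γ * ρ x ^ (p - 1) - z / ‖x‖ + pot ρ x) * (√(ρ x) * ξ x) := by
    rw [← integral_const_mul, ← integral_const_mul, ← integral_add
      ((int_V hp h γ z hη).const_mul a) ((int_V hp h γ z hξ).const_mul c)]
    exact integral_congr_ae (Eventually.of_forall fun x => by ring)
  unfold Lam
  rw [e1, e2]
  ring

/-- Lagrange multiplier rule for a linear functional on test functions -/
theorem mult {lam : ℝ} {ρ : R3 → ℝ} {g : R3 → R3} (hlam : 0 < lam) (h : Adm lam ρ g)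
    (Λ : (R3 → ℝ) → ℝ) (lin : ∀ {η ξ : R3 → ℝ}, Test η → Test ξ → ∀ a c : ℝ,
      Λ (fun x => a * η x + c * ξ x) = a * Λ η + c * Λ ξ)
    (hVAR : ∀ η, Test η → (∀ᶠ t in 𝓝[>] (0 : ℝ), ∫ x, (√(ρ x) + t * η x) ^ 2 ≤ lam) → 0 ≤ Λ η) :
    ∃ μ : ℝ, 0 ≤ μ ∧ (∫ x, ρ x < lam → μ = 0) ∧
      ∀ η : R3 → ℝ, Test η → Λ η + μ * ∫ x, √(ρ x) * η x = 0 := by
  have hINT := p_INT p_COU
  have hneg : ∀ η : R3 → ℝ, Test η → Λ (fun x => -1 * η x + 0 * η x) = -Λ η := fun η hη => by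
    rw [lin hη hη]
    ring
  rcases h.mass.lt_or_eq with hlt | heq
  · have key : ∀ η : R3 → ℝ, Test η → 0 ≤ Λ η := fun η hη => by
      refine hVAR η hη ?_
      simp only [el_mass hINT h hη]
      have hc : ContinuousAt (fun t : ℝ => (∫ x, ρ x) +
          t * (2 * (∫ x, √(ρ x) * η x) + t * ∫ x, η x ^ 2)) 0 := by fun_prop
      exact ((hc.eventually (gt_mem_nhds (by simpa using hlt))).mono
        fun t ht => ht.le).filter_mono nhdsWithin_le_nhds
    refine ⟨0, le_rfl, fun _ => rfl, fun η hη => ?_⟩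
    have h1 := key η hη
    have h2 := key _ (el_test hη hη (-1) 0)
    rw [hneg η hη] at h2
    linarith
  · have key : ∀ η : R3 → ℝ, Test η → ∫ x, √(ρ x) * η x < 0 → 0 ≤ Λ η :=
      fun η hη hJ => by
        refine hVAR η hη ?_
        simp only [el_mass hINT h hη]
        have hc : ContinuousAt (fun t : ℝ =>
            2 * (∫ x, √(ρ x) * η x) + t * ∫ x, η x ^ 2) 0 := by fun_prop
        have h1 : ∀ᶠ t in 𝓝[>] (0 : ℝ), 2 * (∫ x, √(ρ x) * η x) + t * ∫ x, η x ^ 2 < 0 :=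
          (hc.eventually (gt_mem_nhds (by simp only [zero_mul, add_zero]; linarith))).filter_mono
            nhdsWithin_le_nhds
        filter_upwards [h1, self_mem_nhdsWithin] with t ht ht0
        have := mul_nonpos_of_nonneg_of_nonpos (le_of_lt ht0) ht.le
        linarith
    obtain ⟨η0, h0, hJ0⟩ : ∃ η0 : R3 → ℝ, Test η0 ∧ ∫ x, √(ρ x) * η0 x = -1 := by
      by_contra hn
      have hz' : ∀ φ : R3 → ℝ, Test φ → ∫ x, √(ρ x) * φ x = 0 := fun φ hφ => by
        by_contra hne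
        refine hn ⟨_, el_test hφ hφ (-(∫ x, √(ρ x) * φ x)⁻¹) 0, ?_⟩
        rw [el_J hINT h hφ hφ]
        field_simp
        ring
      have := L2_bound_of_test (memLp_sqrt h.nonneg h.L1) le_rfl fun φ h1 h2 => by
        rw [hz' φ ⟨h1, h2⟩]
        simp
      simp only [Real.sq_sqrt (h.nonneg _)] at this
      linarith
    have hμ := key η0 h0 (by rw [hJ0]; norm_num)
    have key0 : ∀ η : R3 → ℝ, Test η → ∫ x, √(ρ x) * η x = 0 → 0 ≤ Λ η :=
      fun η hη hJ => by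
        have hc : ContinuousAt (fun ε : ℝ => 1 * Λ η + ε * Λ η0) 0 := by
          fun_prop
        have h1 := hc.tendsto.mono_left (nhdsWithin_le_nhds (s := Ioi (0 : ℝ)))
        have h2 : 0 ≤ 1 * Λ η + 0 * Λ η0 := by
          refine ge_of_tendsto h1 ?_
          filter_upwards [self_mem_nhdsWithin] with ε hε
          rw [← lin hη h0]
          refine key _ (el_test hη h0 1 ε) ?_
          rw [el_J hINT h hη h0, hJ, hJ0]
          have : 0 < ε := hε
          linarith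
        linarith
    refine ⟨Λ η0, hμ, fun hl => absurd heq hl.ne, fun η hη => ?_⟩
    have a1 := key0 _ (el_test hη h0 1 (∫ x, √(ρ x) * η x)) (by
      rw [el_J hINT h hη h0, hJ0]
      ring)
    have a2 := key0 _ (el_test hη h0 (-1) (-∫ x, √(ρ x) * η x)) (by
      rw [el_J hINT h hη h0, hJ0]
      ring)
    rw [lin hη h0] at a1 a2
    linarith

theorem el {A γ p z lam : ℝ} {ρ : R3 → ℝ} {g : R3 → R3} (hp : 1 < p) (hA : 0 < A)
    (hγ : 0 < γ) (hz : 0 < z) (hlam : 0 < lam) (h : Admissible p lam ρ g)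
    (hmin : ∀ ρ' g', Admissible p lam ρ' g' → energy A γ p z ρ g ≤ energy A γ p z ρ' g') :
    ∃ μ : ℝ, 0 ≤ μ ∧ (∫ x, ρ x < lam → μ = 0) ∧
      ∀ η : R3 → ℝ, Test η → Lam A γ p z ρ g η + μ * ∫ x, √(ρ x) * η x = 0 :=
  mult hlam (adm53 h) _ (fun hη hξ => Lam_lin hp h A γ z hη hξ)
    fun _ hη hm => var hp hA hγ hz h hmin hη hm

end Pool.Agent.P.MP_3d36e1_mp.G
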