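import Pool.Agent.P.MP_97b9bc_mp.T.TSOB
import Pool.Agent.P.MP_97b9bc_mp.T.TCOU

/-! Existence, uniqueness and radial symmetry of the minimiser for every exponent above one. -/

set_option autoImplicit false
open MeasureTheory Set Filter
open scoped ContDiff Topology ENNReal

namespace Pool.Agent.P.MP_3d36e1_mp.G

open MP_97b9bc_mp.T (p_SOB p_COU sob_weak)

lemma five {p lam : ℝ} {ρ : R3 → ℝ} {g : R3 → R3} (h : Admissible p lam ρ g) :
    Admissible (5 / 3) lam ρ g :=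
  have a := p_SOB p_COU ρ g ⟨h.nonneg, h.L1, h.grad, h.grad_L2⟩
  ⟨h.nonneg, h.grad, h.grad_L2, h.L1, a.Lp, h.coulomb, h.mass⟩

lemma split (A γ p z : ℝ) (ρ : R3 → ℝ) (g : R3 → R3) :
    energy A γ p z ρ g = energy A 0 (5 / 3) z ρ g + γ / p * ∫ x, ρ x ^ p := by
  unfold energy; ring

lemma pow_term_nonneg {γ p : ℝ} (hγ : 0 ≤ γ) (hp : 0 ≤ p) {ρ : R3 → ℝ} (h : ∀ x, 0 ≤ ρ x) :
    0 ≤ γ / p * ∫ x, ρ x ^ p :=
  mul_nonneg (div_nonneg hγ hp) (integral_nonneg fun x => Real.rpow_nonneg (h x) p)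

theorem midpoint {A γ p z lam : ℝ} (hp : 1 < p) (hA : 0 < A) (hz : 0 < z)
    {ρ₁ ρ₂ : R3 → ℝ} {g₁ g₂ : R3 → R3} (h₁ : Admissible p lam ρ₁ g₁) (h₂ : Admissible p lam ρ₂ g₂) :
    Integrable (fun x => defect p (ρ₁ x) (ρ₂ x)) ∧
    ∃ g, Admissible p lam (fun x => (ρ₁ x + ρ₂ x) / 2) g ∧
      energy A γ p z (fun x => (ρ₁ x + ρ₂ x) / 2) g + γ / p * ∫ x, defect p (ρ₁ x) (ρ₂ x) ≤
        (energy A γ p z ρ₁ g₁ + energy A γ p z ρ₂ g₂) / 2 := by
  have hp0 : 0 < p := by linarith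
  obtain ⟨-, g, a, hle⟩ := midpoint_energy (A := A) (γ := 0) (by norm_num) hA hz (five h₁) (five h₂)
  have hadm : Admissible p lam (fun x => (ρ₁ x + ρ₂ x) / 2) g :=
    ⟨a.nonneg, a.grad, a.grad_L2, a.L1, by
      simp only [div_eq_mul_inv]
      exact (h₁.Lp.add h₂.Lp).mul_const _, a.coulomb, a.mass⟩
  have p1 := h₁.integrable_rpow hp0
  have p2 := h₂.integrable_rpow hp0
  have p3 := hadm.integrable_rpow hp0
  have p12 : Integrable (fun x => (ρ₁ x ^ p + ρ₂ x ^ p) / 2) := (p1.add p2).div_const 2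
  refine ⟨p12.sub p3, g, hadm, ?_⟩
  unfold defect at *
  rw [integral_sub p12 p3, integral_div, integral_add p1 p2, split, split A γ, split A γ]
  linarith

theorem minimiser_unique {A γ p z lam : ℝ} (hp : 1 < p) (hA : 0 < A) (hγ : 0 < γ)
    (hz : 0 < z) {ρ₁ ρ₂ : R3 → ℝ} (h₁ : IsMinimiser A γ p z lam ρ₁)
    (h₂ : IsMinimiser A γ p z lam ρ₂) : ρ₁ =ᵐ[volume] ρ₂ := by
  obtain ⟨g₁, a₁, m₁⟩ := h₁
  obtain ⟨g₂, a₂, m₂⟩ := h₂
  obtain ⟨hi, g, hg, hle⟩ := midpoint (A := A) (γ := γ) hp hA hz a₁ a₂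
  have h0 : ∀ x, 0 ≤ defect p (ρ₁ x) (ρ₂ x) := fun x =>
    defect_nonneg hp.le (a₁.nonneg x) (a₂.nonneg x)
  have hz' : ∫ x, defect p (ρ₁ x) (ρ₂ x) = 0 := by
    apply le_antisymm _ (integral_nonneg h0)
    have e1 := m₁ _ _ hg
    have e2 := m₂ _ _ hg
    apply le_of_mul_le_mul_left _ (show 0 < γ / p by positivity)
    linarith
  filter_upwards [(integral_eq_zero_iff_of_nonneg h0 hi).1 hz'] with x hx
  by_contra hne
  exact (defect_pos hp (a₁.nonneg x) (a₂.nonneg x) hne).ne' hx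

theorem radial {A γ p z lam : ℝ} (hp : 1 < p) (hA : 0 < A) (hγ : 0 < γ) (hz : 0 < z)
    {ρ : R3 → ℝ} (h : IsMinimiser A γ p z lam ρ) : ∃ f : ℝ → ℝ, ∀ᵐ x, ρ x = f ‖x‖ :=
  radial_of_invariant h.choose_spec.1.L1 fun R => minimiser_unique hp hA hγ hz (h.iso R) h

lemma cube_le : ∃ S : ℝ, 0 ≤ S ∧ ∀ {p lam : ℝ} {ρ : R3 → ℝ} {g : R3 → R3},
    Admissible p lam ρ g → Integrable (fun x => ρ x ^ 3) ∧
      ∫ x, ρ x ^ 3 ≤ S * (∫ x, ‖g x‖ ^ 2) ^ 3 := by
  refine ⟨(SNormLESNormFDerivOfEqConst ℝ (volume : Measure R3) (2 : NNReal) : ℝ) ^ 6,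
    by positivity, fun {p lam ρ g} h => ?_⟩
  have h1 := memLp_sqrt h.nonneg h.L1
  have h2 := MP_593b7e_an.sobolev_weak (E := R3) (q := 6) (by simp)
    (by rw [finrank_R3]; norm_num) h1 h.grad_L2 (sob_weak h1 h.grad_L2 h.grad)
  have h3 : MemLp (fun x => √(ρ x)) ((6 : NNReal) : ENNReal) volume :=
    ⟨h1.1, h2.trans_lt (ENNReal.mul_lt_top ENNReal.coe_lt_top h.grad_L2.2)⟩
  have e6 : ((6 : NNReal) : ENNReal).toReal = (6 : ℕ) := by simp
  have e2 : (2 : ENNReal).toReal = (2 : ℕ) := by simp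
  have e : ∀ x, ‖√(ρ x)‖ ^ ((6 : NNReal) : ENNReal).toReal = ρ x ^ 3 := fun x => by
    rw [e6, Real.rpow_natCast, Real.norm_of_nonneg (Real.sqrt_nonneg _),
      show (6 : ℕ) = 2 * 3 from rfl, pow_mul, Real.sq_sqrt (h.nonneg x)]
  refine ⟨by simpa only [e] using h3.integrable_norm_rpow (by simp) (by simp), ?_⟩
  have h4 := ENNReal.toReal_mono (ENNReal.mul_ne_top ENNReal.coe_ne_top h.grad_L2.2.ne) h2
  rw [ENNReal.toReal_mul, toReal_eLpNorm h1.1, toReal_eLpNorm h.grad_L2.1,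
    lpNorm_eq_integral_norm_rpow_toReal (by simp) (by simp) h1.1,
    lpNorm_eq_integral_norm_rpow_toReal (by simp) (by simp) h.grad_L2.1] at h4
  simp only [e] at h4
  simp only [e6, e2, Real.rpow_natCast, ENNReal.coe_toReal] at h4
  have n1 : 0 ≤ ∫ x, ρ x ^ 3 := integral_nonneg fun x => pow_nonneg (h.nonneg x) 3
  have n2 : 0 ≤ ∫ x, ‖g x‖ ^ 2 := integral_nonneg fun x => by positivity
  have h5 := pow_le_pow_left₀ (by positivity) h4 6
  rwa [Real.rpow_inv_natCast_pow n1 (by norm_num), mul_pow, show (6 : ℕ) = 2 * 3 from rfl,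
    pow_mul (_ ^ _ : ℝ), Real.rpow_inv_natCast_pow n2 (by norm_num)] at h5

lemma five_pt {r a : ℝ} (hr : 0 ≤ r) (ha : 0 < a) : r ^ (5 / 3 : ℝ) ≤ a * r + r ^ 3 / a ^ 2 := by
  obtain ⟨t, ht, rfl⟩ : ∃ t : ℝ, 0 ≤ t ∧ r = t ^ 3 :=
    ⟨r ^ ((3 : ℕ)⁻¹ : ℝ), by positivity, (Real.rpow_inv_natCast_pow hr (by norm_num)).symm⟩
  have e : (t ^ 3) ^ (5 / 3 : ℝ) = t ^ 2 * t ^ 3 := by
    rw [← Real.rpow_natCast t 3, ← Real.rpow_mul ht, ← Real.rpow_natCast t 2,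
      ← Real.rpow_add' ht (by norm_num)]
    norm_num
  rw [e]
  rcases le_total (t ^ 2) a with h | h
  · exact le_add_of_le_of_nonneg (by gcongr) (by positivity)
  · refine le_add_of_nonneg_of_le (by positivity) ((le_div_iff₀ (by positivity)).2 ?_)
    calc t ^ 2 * t ^ 3 * a ^ 2 ≤ t ^ 2 * t ^ 3 * (t ^ 2) ^ 2 := by gcongr
      _ = _ := by ring

lemma five_le (lam : ℝ) : ∃ C : ℝ, 0 < C ∧ ∀ {p : ℝ} {ρ : R3 → ℝ} {g : R3 → R3},
    Admissible p lam ρ g → ∫ x, ρ x ^ (5 / 3 : ℝ) ≤ C * ((∫ x, ‖g x‖ ^ 2) + 1) := by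
  obtain ⟨S, hS, h⟩ := cube_le
  refine ⟨|lam| + S + 1, by positivity, fun {p ρ g} a => ?_⟩
  obtain ⟨h1, h2⟩ := h a
  have n2 : 0 ≤ ∫ x, ‖g x‖ ^ 2 := integral_nonneg fun x => by positivity
  set K := ∫ x, ‖g x‖ ^ 2
  have hK : 0 < K + 1 := by positivity
  have i1 := a.L1.const_mul (K + 1)
  have i2 := h1.div_const ((K + 1) ^ 2)
  have h3 := integral_mono ((five a).integrable_rpow (by norm_num)) (i1.add i2)
    fun x => five_pt (a.nonneg x) hK
  simp only [Pi.add_apply] at h3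
  rw [integral_add i1 i2, integral_const_mul, integral_div] at h3
  have h4 := mul_le_mul_of_nonneg_left (a.mass.trans (le_abs_self lam)) hK.le
  have h5 : (∫ x, ρ x ^ 3) / (K + 1) ^ 2 ≤ S * (K + 1) := by
    rw [div_le_iff₀ (by positivity), mul_assoc, ← pow_succ']
    exact h2.trans (by gcongr; linarith)
  linarith

lemma coercive {A z lam : ℝ} (hA : 0 < A) (hz : 0 < z) : ∃ B : ℝ, ∀ p ρ g, Admissible p lam ρ g →
    A / 2 * (∫ x, ‖g x‖ ^ 2) - B ≤ energy A 0 (5 / 3) z ρ g := by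
  obtain ⟨C, hC, h⟩ := five_le lam
  obtain ⟨B, hB⟩ := tf_lower (γ := 5 / 3 * (A / 2 / C)) (p := 5 / 3) (lam := lam) (by norm_num)
    (by positivity) hz
  refine ⟨B + A / 2, fun p ρ g a => ?_⟩
  have h1 := hB ρ g (five a)
  have h2 := mul_le_mul_of_nonneg_left (h a) (show 0 ≤ A / 2 / C by positivity)
  rw [← mul_assoc, div_mul_cancel₀ _ hC.ne'] at h2
  have h3 := a.coulomb_nonneg
  unfold tf at h1
  unfold energy
  linarith

lemma grad_unique {u : R3 → ℝ} {g₁ g₂ : R3 → R3} (h₁ : IsWeakGradient u g₁)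
    (h₂ : IsWeakGradient u g₂) (m₁ : MemLp g₁ 2) (m₂ : MemLp g₂ 2) :
    ∫ x, ‖g₁ x‖ ^ 2 = ∫ x, ‖g₂ x‖ ^ 2 := by
  rw [kinetic_sum m₁, kinetic_sum m₂]
  refine Finset.sum_congr rfl fun i _ => integral_congr_ae ?_
  set v : R3 := EuclideanSpace.single i (1 : ℝ)
  have a₁ : MemLp (fun x => inner ℝ (g₁ x) v) 2 := m₁.inner_const v
  have a₂ : MemLp (fun x => inner ℝ (g₂ x) v) 2 := m₂.inner_const v
  have h := L2_bound_of_test (a₁.sub a₂) le_rfl fun φ h1 h2 => by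
    simp only [Pi.sub_apply, sub_mul]
    rw [integral_sub (int_mul a₁ (test_memLp h1 h2)) (int_mul a₂ (test_memLp h1 h2)),
      neg_injective ((h₁ φ h1 h2 v).symm.trans (h₂ φ h1 h2 v))]
    simp
  filter_upwards [(integral_eq_zero_iff_of_nonneg (fun x => sq_nonneg _)
    (a₁.sub a₂).integrable_sq).1 (le_antisymm (by simpa using h)
      (integral_nonneg fun x => sq_nonneg _))] with x hx
  exact congrArg (· ^ 2) (sub_eq_zero.1 ((pow_eq_zero_iff two_ne_zero).1 hx))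

theorem limit_admissible {A γ p z lam m : ℝ} (hp : 1 < p) (hA : 0 < A) (hγ : 0 < γ)
    (hz : 0 < z) {ρ : ℕ → R3 → ℝ} {g : ℕ → R3 → R3} (h : ∀ k, Admissible p lam (ρ k) (g k))
    {ε : ℕ → ℝ} (hε : Tendsto ε atTop (𝓝 0)) (hE : ∀ k, energy A γ p z (ρ k) (g k) ≤ m + ε k)
    {ρ' : R3 → ℝ} (h0 : ∀ x, 0 ≤ ρ' x)
    (hl : ∀ᵐ x, Tendsto (fun k => ρ k x) atTop (𝓝 (ρ' x))) :
    ∃ g', Admissible p lam ρ' g' ∧ energy A γ p z ρ' g' ≤ m := by
  have hp0 : 0 < p := by linarith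
  have hγp : 0 < γ / p := by positivity
  obtain ⟨B, hB⟩ := coercive (lam := lam) hA hz
  obtain ⟨C, hC, h5⟩ := five_le lam
  obtain ⟨E, hEb⟩ := hε.bddAbove_range
  have hb : ∀ k, A / 2 * (∫ x, ‖g k x‖ ^ 2) + γ / p * ∫ x, ρ k x ^ p ≤ m + E + B := fun k => by
    have := hE k
    rw [split] at this
    linarith [hB _ _ _ (h k), hEb ⟨k, rfl⟩]
  have n1 : ∀ k, 0 ≤ ∫ x, ρ k x ^ p := fun k =>
    integral_nonneg fun x => Real.rpow_nonneg ((h k).nonneg x) p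
  have n2 : ∀ k, 0 ≤ ∫ x, ‖g k x‖ ^ 2 := fun k => integral_nonneg fun x => by positivity
  obtain ⟨T, -, φ, hφ, hT⟩ := (isCompact_Icc (a := 0) (b := (m + E + B) / (γ / p))).tendsto_subseq
    (x := fun k => ∫ x, ρ k x ^ p) fun k => ⟨n1 k, (le_div_iff₀ hγp).2 (by
      nlinarith [hb k, n2 k])⟩
  have hl' : ∀ᵐ x, Tendsto (fun k => ρ (φ k) x) atTop (𝓝 (ρ' x)) := by
    filter_upwards [hl] with x hx using hx.comp hφ.tendsto_atTop
  obtain ⟨f1, f2⟩ := fatou_real (f := fun k x => ρ (φ k) x ^ p)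
    (fun k x => Real.rpow_nonneg ((h _).nonneg x) p) (fun k => (h _).integrable_rpow hp0)
    (hl'.mono fun x hx => hx.rpow_const (Or.inr hp0.le)) (fun k => le_rfl) hT
  set M := |C * ((m + E + B) / (A / 2) + 1)| + 1 with hM
  have hM0 : 0 < M := by positivity
  have hM' : ∀ k, ∫ x, ρ k x ^ (5 / 3 : ℝ) ≤ M := fun k => by
    refine (h5 (h k)).trans (le_trans ?_ ((le_abs_self _).trans (lt_add_one _).le))
    gcongr
    exact (le_div_iff₀ (half_pos hA)).2 (by nlinarith [hb k, mul_nonneg hγp.le (n1 k)])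
  have key : ∀ δ : ℝ, 0 < δ → ∃ g', Admissible (5 / 3) lam ρ' g' ∧
      energy A 0 (5 / 3) z ρ' g' ≤ m - γ / p * T + δ := fun δ hδ => by
    obtain ⟨g', a, b⟩ := MP_3d36e1_mp.limit_admissible (γ := 5 / 3 * (δ / M))
      (m := m - γ / p * T + δ) (by norm_num) hA (by positivity) hz (fun k => five (h (φ k)))
      (ε := fun k => ε (φ k) + γ / p * (T - ∫ x, ρ (φ k) x ^ p))
      (by simpa using (hε.comp hφ.tendsto_atTop).add ((hT.const_sub T).const_mul (γ / p)))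
      (fun k => by
        have h1 := hE (φ k)
        have h2 := mul_le_mul_of_nonneg_left (hM' (φ k)) (div_pos hδ hM0).le
        rw [div_mul_cancel₀ _ hM0.ne'] at h2
        rw [split] at h1 ⊢
        linarith) h0 hl'
    rw [split] at b
    exact ⟨g', a, (le_add_of_nonneg_right
      (pow_term_nonneg (by positivity) (by norm_num) h0)).trans b⟩
  obtain ⟨g', a, -⟩ := key 1 one_pos
  refine ⟨g', ⟨h0, a.grad, a.grad_L2, a.L1, memLp_of_rpow hp0 h0 a.L1.1 f1, a.coulomb, a.mass⟩,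
    le_of_forall_pos_le_add fun δ hδ => ?_⟩
  obtain ⟨g'', a', b⟩ := key δ hδ
  have := mul_le_mul_of_nonneg_left f2 hγp.le
  rw [split]
  unfold energy at b ⊢
  rw [grad_unique a.grad a'.grad a.grad_L2 a'.grad_L2]
  linarith

theorem close_in_measure {A γ p z lam m : ℝ} (hp1 : 1 < p) (hA : 0 < A) (hγ : 0 < γ)
    (hz : 0 < z) (hlam : 0 < lam)
    (hm : ∀ ρ g, Admissible p lam ρ g → m ≤ energy A γ p z ρ g) {η : ℝ} (hη : 0 < η) :
    ∃ ε : ℝ, 0 < ε ∧ ∀ ρ₁ g₁ ρ₂ g₂, Admissible p lam ρ₁ g₁ → Admissible p lam ρ₂ g₂ →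
      energy A γ p z ρ₁ g₁ ≤ m + ε → energy A γ p z ρ₂ g₂ ≤ m + ε →
      volume {x | η ≤ |ρ₁ x - ρ₂ x|} ≤ ENNReal.ofReal η := by
  have hp0 : 0 < p := by linarith
  set M := 4 * lam / η with hM
  have hM0 : 0 < M := by positivity
  have hS : IsCompact ((Icc (0 : ℝ) M ×ˢ Icc (0 : ℝ) M) ∩ {q : ℝ × ℝ | η ≤ |q.1 - q.2|}) :=
    (isCompact_Icc.prod isCompact_Icc).inter_right (isClosed_le continuous_const (by fun_prop))
  have hcont : Continuous (fun q : ℝ × ℝ => defect p q.1 q.2) := by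
    have := Real.continuous_rpow_const hp0.le
    unfold defect
    fun_prop (disch := intro _; exact Or.inr hp0.le)
  obtain ⟨c, hc, hcS⟩ := hS.exists_forall_le' hcont.continuousOn (a := 0) (by
    rintro ⟨a, b⟩ ⟨⟨ha, hb⟩, hab⟩
    refine defect_pos hp1 ha.1 hb.1 ?_
    intro hab'
    simp only [mem_ofPred_eq] at hab hab'
    rw [hab', sub_self, abs_zero] at hab
    linarith)
  refine ⟨γ / p * (c * η / 2), by positivity, ?_⟩
  intro ρ₁ g₁ ρ₂ g₂ h₁ h₂ e₁ e₂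
  obtain ⟨hi, g, hg, hle⟩ := midpoint (A := A) (γ := γ) hp1 hA hz h₁ h₂
  have hJ : ∫ x, defect p (ρ₁ x) (ρ₂ x) ≤ c * η / 2 := by
    have := hm _ _ hg
    apply le_of_mul_le_mul_left _ (show 0 < γ / p by positivity)
    linarith
  set F : R3 → ℝ := fun x => ρ₁ x / M + ρ₂ x / M + defect p (ρ₁ x) (ρ₂ x) / c with hF
  have i1 : Integrable (fun x => ρ₁ x / M) := h₁.L1.div_const M
  have i2 : Integrable (fun x => ρ₂ x / M) := h₂.L1.div_const M
  have i12 : Integrable (fun x => ρ₁ x / M + ρ₂ x / M) := i1.add i2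
  have i3 : Integrable (fun x => defect p (ρ₁ x) (ρ₂ x) / c) := hi.div_const c
  have hFi : Integrable F := i12.add i3
  have hF0 : ∀ x, 0 ≤ F x := fun x => by
    have := h₁.nonneg x; have := h₂.nonneg x
    have := defect_nonneg hp1.le (h₁.nonneg x) (h₂.nonneg x)
    simp only [hF]; positivity
  have hFint : ∫ x, F x ≤ η := by
    simp only [hF]
    rw [integral_add i12 i3, integral_add i1 i2, integral_div, integral_div, integral_div]
    have a1 : (∫ x, ρ₁ x) / M ≤ η / 4 := by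
      rw [div_le_iff₀ hM0, hM]
      have : η / 4 * (4 * lam / η) = lam := by field_simp
      rw [this]; exact h₁.mass
    have a2 : (∫ x, ρ₂ x) / M ≤ η / 4 := by
      rw [div_le_iff₀ hM0, hM]
      have : η / 4 * (4 * lam / η) = lam := by field_simp
      rw [this]; exact h₂.mass
    have a3 : (∫ x, defect p (ρ₁ x) (ρ₂ x)) / c ≤ η / 2 := by
      rw [div_le_iff₀ hc]; linarith
    linarith
  have hsub : {x | η ≤ |ρ₁ x - ρ₂ x|} ⊆ {x | 1 ≤ ENNReal.ofReal (F x)} := by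
    intro x hx
    simp only [mem_ofPred_eq, ENNReal.one_le_ofReal, hF]
    have n1 : 0 ≤ ρ₁ x / M := div_nonneg (h₁.nonneg x) hM0.le
    have n2 : 0 ≤ ρ₂ x / M := div_nonneg (h₂.nonneg x) hM0.le
    have n3 : 0 ≤ defect p (ρ₁ x) (ρ₂ x) / c :=
      div_nonneg (defect_nonneg hp1.le (h₁.nonneg x) (h₂.nonneg x)) hc.le
    by_cases c1 : ρ₁ x ≤ M
    · by_cases c2 : ρ₂ x ≤ M
      · have := hcS (ρ₁ x, ρ₂ x) ⟨⟨⟨h₁.nonneg x, c1⟩, ⟨h₂.nonneg x, c2⟩⟩, hx⟩
        have : 1 ≤ defect p (ρ₁ x) (ρ₂ x) / c := by rw [le_div_iff₀ hc]; linarith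
        linarith
      · have : 1 ≤ ρ₂ x / M := by rw [le_div_iff₀ hM0]; linarith
        linarith
    · have : 1 ≤ ρ₁ x / M := by rw [le_div_iff₀ hM0]; linarith
      linarith
  calc volume {x | η ≤ |ρ₁ x - ρ₂ x|} ≤ volume {x | 1 ≤ ENNReal.ofReal (F x)} := measure_mono hsub
    _ ≤ ∫⁻ x, ENNReal.ofReal (F x) := by
        have := mul_meas_ge_le_lintegral₀
          (hFi.aestronglyMeasurable.aemeasurable.ennreal_ofReal) 1
        rwa [one_mul] at this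
    _ = ENNReal.ofReal (∫ x, F x) :=
        (ofReal_integral_eq_lintegral_ofReal hFi (Eventually.of_forall hF0)).symm
    _ ≤ ENNReal.ofReal η := ENNReal.ofReal_le_ofReal hFint

theorem exists_minimiser {A γ p z lam : ℝ} (hp : 1 < p) (hA : 0 < A) (hγ : 0 < γ)
    (hz : 0 < z) (hlam : 0 < lam) : ∃ ρ, IsMinimiser A γ p z lam ρ := by
  obtain ⟨B, hB⟩ := coercive (lam := lam) hA hz
  set S : Set ℝ := {E | ∃ ρ g, Admissible p lam ρ g ∧ E = energy A γ p z ρ g} with hS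
  have hne : S.Nonempty := ⟨_, _, _, admissible_of_contDiff (p := p) (lam := lam) (u := fun _ => 0)
    (fun _ => le_rfl) contDiff_const HasCompactSupport.zero (by simpa using hlam.le), rfl⟩
  have hbd : BddBelow S := by
    refine ⟨-B, ?_⟩
    rintro _ ⟨ρ, g, h, rfl⟩
    have b1 := hB _ _ _ h
    have b2 := pow_term_nonneg (γ := γ) (p := p) hγ.le (by linarith) h.nonneg
    have b3 : 0 ≤ A / 2 * ∫ x, ‖g x‖ ^ 2 :=
      mul_nonneg (by positivity) (integral_nonneg fun x => by positivity)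
    rw [split]
    linarith
  set m := sInf S with hm
  have hmle : ∀ ρ g, Admissible p lam ρ g → m ≤ energy A γ p z ρ g :=
    fun ρ g h => csInf_le hbd ⟨ρ, g, h, rfl⟩
  choose ε hε hclose using fun k : ℕ =>
    close_in_measure hp hA hγ hz hlam hmle (η := (1 / 2) ^ k) (by positivity)
  have happ : ∀ δ : ℝ, 0 < δ → ∃ ρ g, Admissible p lam ρ g ∧ energy A γ p z ρ g ≤ m + δ := by
    intro δ hδ
    obtain ⟨_, ⟨ρ, g, h, rfl⟩, hlt⟩ := exists_lt_of_csInf_lt hne (show sInf S < m + δ by linarith)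
    exact ⟨ρ, g, h, hlt.le⟩
  choose ρ g hadm hE using fun k : ℕ =>
    happ (min (min (ε k) (ε (k - 1))) ((1 / 2) ^ k)) (lt_min (lt_min (hε _) (hε _)) (by positivity))
  have hvol : ∀ k, volume {x | (1 / 2 : ℝ) ^ k ≤ |ρ k x - ρ (k + 1) x|} ≤
      ENNReal.ofReal ((1 / 2) ^ k) := by
    intro k
    apply hclose k _ _ _ _ (hadm k) (hadm (k + 1))
    · exact (hE k).trans (by gcongr; exact (min_le_left _ _).trans (min_le_left _ _))
    · exact (hE (k + 1)).trans (by gcongr; exact (min_le_left _ _).trans (min_le_right _ _))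
  have hsum : ∑' k, volume {x | (1 / 2 : ℝ) ^ k ≤ |ρ k x - ρ (k + 1) x|} ≠ ⊤ := by
    refine ne_top_of_le_ne_top ?_ (ENNReal.tsum_le_tsum hvol)
    rw [← ENNReal.ofReal_tsum_of_nonneg (fun k => by positivity) summable_geometric_two]
    exact ENNReal.ofReal_ne_top
  have hl : ∀ᵐ x, Tendsto (fun k => ρ k x) atTop (𝓝 (max (limUnder atTop fun k => ρ k x) 0)) := by
    filter_upwards [ae_eventually_notMem hsum] with x hx
    have hc : CauchySeq (fun k => ρ k x) := by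
      apply cauchySeq_of_summable_dist
      refine Summable.of_norm_bounded_eventually_nat summable_geometric_two ?_
      filter_upwards [hx] with k hk
      simp only [not_le] at hk
      rw [Real.norm_of_nonneg dist_nonneg, Real.dist_eq]
      exact hk.le
    have ht := hc.tendsto_limUnder
    rw [max_eq_left (ge_of_tendsto' ht fun k => (hadm k).nonneg x)]
    exact ht
  obtain ⟨g', h1, h2⟩ := limit_admissible hp hA hγ hz hadm (ε := fun k => (1 / 2) ^ k)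
    (tendsto_pow_atTop_nhds_zero_of_lt_one (by norm_num) (by norm_num))
    (fun k => (hE k).trans (by gcongr; exact min_le_right _ _)) (fun x => le_max_right _ _) hl
  exact ⟨_, g', h1, fun ρ' g'' h => h2.trans (hmle _ _ h)⟩

end Pool.Agent.P.MP_3d36e1_mp.G
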