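import Pool.Agent.P.MP_3d36e1_mp.Lc.Link

/-! Failure of logarithmic convexity for small mass. -/

set_option autoImplicit false

namespace Pool.Agent.P.MP_3d36e1_mp.G

open Set Filter Topology MeasureTheory Lc

section

variable (X : Rad)

lemma g_anti (h : ∀ r, 0 < r → 0 ≤ X.k r) {a b : ℝ} (ha : 0 < a) (hab : a ≤ b) : X.g b ≤ X.g a :=
  ant ha hab X.dk0 fun u h3 _ => neg_nonpos.2 (h u (ha.trans_le h3))

lemma g_upper (h : ∀ r, 0 < r → 0 ≤ X.k r) {r : ℝ} (hr : 0 < r) : 2 * X.A * X.g r ≤ X.z := by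
  obtain ⟨Ψ, e, hc, hp, -⟩ := X.extend
  have hA := X.hA
  have hz := X.hz
  have h0 := hp 0 le_rfl
  have hl : Tendsto X.ψ (𝓝[>] 0) (𝓝 (Ψ 0)) :=
    ((hc 0 self_mem_Ici).mono_left (nhdsWithin_mono _ Ioi_subset_Ici_self)).congr'
      (eventually_mem_nhdsWithin.mono e)
  have hb : ∀ t, 0 < t → X.ψ t ≤ Ψ 0 := fun t ht => by
    refine ge_of_tendsto hl ?_
    filter_upwards [Ioc_mem_nhdsGT ht] with s hs using X.ψ_anti hs.1 hs.2
  have h1 : X.g r * Ψ 0 ≤ X.z / (2 * X.A) * Ψ 0 := by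
    refine le_of_tendsto (hl.const_mul _) ?_
    filter_upwards [Ioc_mem_nhdsGT hr] with s hs
    have h2 := X.n_le (B := fun r => X.z / (2 * X.A) * Ψ 0 * r ^ 2) (δ := s)
      (fun u _ => ((hasDerivAt_id' u).fun_pow 2).const_mul _) (fun u _ => by positivity)
      (fun u hu _ => by
        have := mul_le_mul_of_nonneg_left (hb u hu) (show 0 ≤ X.z / X.A * u by positivity)
        refine le_of_eq_of_le (by ring) (this.trans_eq ?_)
        push_cast
        field_simp) hs.1 le_rfl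
    have h3 : X.g s * X.ψ s ≤ X.z / (2 * X.A) * Ψ 0 :=
      le_of_mul_le_mul_left (h2.trans_eq (mul_comm _ _)) (pow_pos hs.1 2)
    exact (mul_le_mul_of_nonneg_right (g_anti X h hs.1 hs.2) (X.pos s hs.1).le).trans h3
  have := le_of_mul_le_mul_right h1 h0
  rwa [le_div_iff₀ (by positivity), mul_comm] at this

lemma g_lower (h : ∀ r, 0 < r → 0 ≤ X.k r) {r : ℝ} (hr : 0 < r) : X.κ ≤ X.g r := by
  by_contra hn
  push Not at hn
  have h0 := X.g_nonneg hr
  have hd : 0 < (X.κ ^ 2 - X.g r ^ 2) / 2 := by nlinarith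
  obtain ⟨S, hS⟩ := eventually_atTop.1 ((X.WA.eventually (lt_mem_nhds
    (show X.κ ^ 2 - (X.κ ^ 2 - X.g r ^ 2) / 2 < X.κ ^ 2 by linarith))).and
      (eventually_ge_atTop r))
  have hS0 := hr.trans_le (hS S le_rfl).2
  obtain ⟨s, h1, h2⟩ := sink hS0 hd (fun s hs => X.dk0 s (hS0.trans_le hs)) (fun s hs => by
    have hs0 := hS0.trans_le hs
    have a1 := X.g_nonneg hs0
    have a2 : X.g s ^ 2 ≤ X.g r ^ 2 := pow_le_pow_left₀ a1 (g_anti X h hr (hS s hs).2) 2
    have a3 : 0 ≤ 2 * X.g s / s := by positivity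
    unfold Rad.k
    linarith [(hS s hs).1]) 0
  exact absurd h2 (not_lt.2 (X.g_nonneg (hS0.trans_le h1)))

lemma v_nonpos {r : ℝ} (hr : 0 < r) : X.v r ≤ 0 := by
  by_contra hn
  push Not at hn
  refine absurd (ge_of_tendsto X.rv ?_) (not_le.2 (mul_pos hr hn))
  filter_upwards [eventually_ge_atTop r] with s hs
  refine mul_le_mul hs (mono hr hs X.dv fun u h1 _ => ?_) hn.le (hr.le.trans hs)
  have := hr.trans_le h1
  positivity

lemma L_le {r : ℝ} (hr : 0 < r) : X.L ≤ X.w r := by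
  refine le_of_tendsto X.winf ?_
  filter_upwards [eventually_ge_atTop r] with s hs
  exact ant hr hs X.dw fun u h1 _ => v_nonpos X (hr.trans_le h1)

lemma mass_ge (hI : IntegrableOn (fun r => 4 * Real.pi * (r * X.ψ r) ^ 2) (Ioi 0)) :
    X.ψ 1 ^ 2 ≤ ∫ r in Ioi (0 : ℝ), 4 * Real.pi * (r * X.ψ r) ^ 2 := by
  have hs : Ioc (1 / 2 : ℝ) 1 ⊆ Ioi 0 := fun r hr => lt_trans (by norm_num) hr.1
  refine le_trans ?_ (setIntegral_mono_set hI (Eventually.of_forall fun r => by positivity)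
    hs.eventuallyLE)
  have h1 := setIntegral_ge_of_const_le_real (μ := volume) (c := 2 * X.ψ 1 ^ 2) measurableSet_Ioc
    (by simp) (fun r (hr : r ∈ Ioc (1 / 2 : ℝ) 1) => show _ ≤ 4 * Real.pi * (r * X.ψ r) ^ 2 by
      have h2 := X.ψ_anti (hs hr) hr.2
      have h3 := X.pos 1 one_pos
      have h4 : (1 / 2 * X.ψ 1) ^ 2 ≤ (r * X.ψ r) ^ 2 :=
        pow_le_pow_left₀ (by positivity) (mul_le_mul hr.1.le h2 h3.le (hs hr).le) 2
      nlinarith [Real.pi_gt_three, sq_nonneg (X.ψ 1)]) (hI.mono_set hs)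
  rw [Real.volume_real_Ioc_of_le (by norm_num)] at h1
  linarith

lemma decay {a : ℝ} (ha : 0 ≤ a) (h : ∀ r, 0 < r → a / 2 ≤ X.g r ∧ X.g r ≤ a) {r : ℝ}
    (hr : 0 < r) : X.ψ r * Real.exp (a / 2 * r) ≤ X.ψ 2 * Real.exp (a * 2) := by
  have d : ∀ c s : ℝ, 0 < s → HasDerivAt (fun s => X.ψ s * Real.exp (c * s))
      ((c - X.g s) * (X.ψ s * Real.exp (c * s))) s := fun c s hs =>
    ((X.dψ s hs).fun_mul ((hasDerivAt_id' s).const_mul c).exp).congr_deriv (by ring)
  have p : ∀ c s : ℝ, 0 < s → 0 ≤ X.ψ s * Real.exp (c * s) := fun c s hs =>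
    mul_nonneg (X.pos s hs).le (Real.exp_pos _).le
  rcases le_total r 2 with h2 | h2
  · refine le_trans ?_ (mono (f := fun s => X.ψ s * Real.exp (a * s)) hr h2 (d a) fun s h1 _ =>
      mul_nonneg (sub_nonneg.2 (h s (hr.trans_le h1)).2) (p a s (hr.trans_le h1)))
    exact mul_le_mul_of_nonneg_left (Real.exp_le_exp.2 (by nlinarith)) (X.pos r hr).le
  · refine (ant (f := fun s => X.ψ s * Real.exp (a / 2 * s)) two_pos h2 (d _) fun s h1 _ =>
      mul_nonpos_of_nonpos_of_nonneg (sub_nonpos.2 (h s (two_pos.trans_le h1)).1)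
        (p _ s (two_pos.trans_le h1))).trans ?_
    exact mul_le_mul_of_nonneg_left (Real.exp_le_exp.2 (by linarith)) (X.pos 2 two_pos).le

end

lemma mass_le {a : ℝ} (ha : 0 < a) : ∃ C : ℝ, 0 < C ∧ ∀ X : Rad,
    (∀ r, 0 < r → a / 2 ≤ X.g r ∧ X.g r ≤ a) →
      ∫ r in Ioi (0 : ℝ), 4 * Real.pi * (r * X.ψ r) ^ 2 ≤ C * X.ψ 2 ^ 2 := by
  have hi : IntegrableOn (fun r : ℝ => r ^ 2 * Real.exp (-a * r)) (Ioi 0) := by
    simpa using integrableOn_rpow_mul_exp_neg_mul_rpow (s := 2) (p := 1) (by norm_num) one_pos ha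
  have h0 : 0 ≤ ∫ r in Ioi (0 : ℝ), r ^ 2 * Real.exp (-a * r) :=
    integral_nonneg fun r => by positivity
  refine ⟨4 * Real.pi * Real.exp (a * 2) ^ 2 * (∫ r in Ioi (0 : ℝ), r ^ 2 * Real.exp (-a * r)) + 1,
    by positivity, fun X h => ?_⟩
  have h1 := integral_mono_of_nonneg (f := fun r => 4 * Real.pi * (r * X.ψ r) ^ 2)
    (Eventually.of_forall fun r => by positivity)
    (hi.const_mul (4 * Real.pi * (X.ψ 2 * Real.exp (a * 2)) ^ 2)) (by
      filter_upwards [ae_restrict_mem measurableSet_Ioi] with r hr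
      have h2 := pow_le_pow_left₀ (mul_nonneg (X.pos r hr).le (Real.exp_pos _).le)
        (decay X ha.le h hr) 2
      have e : Real.exp (a / 2 * r) ^ 2 * Real.exp (-a * r) = 1 := by
        rw [← Real.exp_nat_mul, ← Real.exp_add, ← Real.exp_zero]
        congr 1
        push_cast
        ring
      have h3 := mul_le_mul_of_nonneg_right h2
        (show 0 ≤ 4 * Real.pi * (r ^ 2 * Real.exp (-a * r)) by positivity)
      refine le_of_eq_of_le ?_ (h3.trans_eq (by ring))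
      linear_combination (-4 * Real.pi * r ^ 2 * X.ψ r ^ 2) * e)
  refine (h1.trans_eq (integral_const_mul _ _)).trans ?_
  nlinarith [sq_nonneg (X.ψ 2)]

theorem never {A γ q z : ℝ} (hA : 0 < A) (hγ : 0 < γ) (hq : 0 < q) (hq2 : q < 2) (hz : 0 < z) :
    ∀ᶠ lam in 𝓝[>] (0 : ℝ), ∀ (X : Rad) (N : ℝ), X.A = A → X.γ = γ → X.q = q → X.z = z →
      IntegrableOn (fun r => 4 * Real.pi * (r * X.ψ r) ^ 2) (Ioi 0) →
      N = ∫ r in Ioi (0 : ℝ), 4 * Real.pi * (r * X.ψ r) ^ 2 → X.L = z - N → N ≤ lam →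
      (N < lam → X.μ = 0) → ¬ ∀ r, 0 < r → 0 ≤ X.k r := by
  set a := z / (2 * A) with ha
  have ha0 : 0 < a := by positivity
  have haz : 2 * A * a = z := by rw [ha]; field_simp
  obtain ⟨C, hC, hm⟩ := mass_le ha0
  have c1 : ContinuousAt (fun l : ℝ => γ * √l ^ q + l) 0 :=
    ((Real.continuous_sqrt.continuousAt.rpow_const (Or.inr hq.le)).const_mul γ).add continuousAt_id
  have c2 : ContinuousAt (fun l : ℝ => (3 / 2 + a) * C * (l / C) ^ (1 - q / 2)) 0 :=
    ((continuousAt_id.div_const C).rpow_const (Or.inr (by linarith))).const_mul _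
  have e1 : ∀ᶠ l in 𝓝 (0 : ℝ), γ * √l ^ q + l < min (z / 2) (z ^ 2 / (32 * A)) :=
    c1.eventually_lt continuousAt_const (by
      simp only [Real.sqrt_zero, Real.zero_rpow hq.ne', mul_zero, add_zero]
      positivity)
  have e2 : ∀ᶠ l in 𝓝 (0 : ℝ), (3 / 2 + a) * C * (l / C) ^ (1 - q / 2) < γ :=
    c2.eventually_lt continuousAt_const (by
      simpa only [zero_div, Real.zero_rpow (show 1 - q / 2 ≠ 0 by linarith), mul_zero] using hγ)
  filter_upwards [(e1.and e2).filter_mono nhdsWithin_le_nhds, self_mem_nhdsWithin]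
    with lam ⟨l1, l2⟩ hl X N hXA hXγ hXq hXz hI hN hL hNl hμ hk
  have hl0 : 0 < lam := hl
  obtain ⟨l3, l4⟩ := lt_min_iff.1 l1
  have hs : 0 ≤ γ * √lam ^ q := by positivity
  have up : ∀ r, 0 < r → 2 * A * X.g r ≤ z := fun r hr => hXA ▸ hXz ▸ g_upper X hk hr
  by_cases h0 : X.μ = 0
  · have h1 := hk 1 one_pos
    have h2 := L_le X one_pos
    have h3 := up 1 one_pos
    have h4 : X.ψ 1 ≤ √lam := Real.le_sqrt_of_sq_le ((mass_ge X hI).trans (hN ▸ hNl))
    have h5 : X.y 1 ≤ γ * √lam ^ q := by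
      unfold Rad.y
      rw [hXγ, hXq]
      exact mul_le_mul_of_nonneg_left (Real.rpow_le_rpow (X.pos 1 one_pos).le h4 hq.le) hγ.le
    have h6 : A * X.k 1 = X.y 1 - X.w 1 + 2 * A * X.g 1 - A * X.g 1 ^ 2 := by
      unfold Rad.k Rad.W
      rw [h0, hXA]
      field_simp
      ring
    have h7 := mul_nonneg hA.le h1
    have h8 : 0 ≤ A * X.g 1 ^ 2 := by positivity
    have h9 : z / 2 ≤ 2 * A * X.g 1 := by linarith
    have h10 : A * X.g 1 ^ 2 < z ^ 2 / (32 * A) := by linarith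
    rw [lt_div_iff₀ (by positivity)] at h10
    nlinarith [pow_le_pow_left₀ (half_pos hz).le h9 2]
  · have hN' : N = lam := le_antisymm hNl (not_lt.1 fun h => h0 (hμ h))
    have h1 := X.of_nonneg hk h0
    rw [hL, hN', hXA] at h1
    have lo := fun r => g_lower X hk (r := r)
    have up' : ∀ r, 0 < r → X.g r ≤ a := fun r hr =>
      le_of_mul_le_mul_left ((up r hr).trans haz.ge) (by positivity)
    have hκ : a / 2 ≤ X.κ :=
      le_of_mul_le_mul_left (a := 2 * A) (by linarith) (by positivity)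
    have h2 := hm X fun r hr => ⟨hκ.trans (lo r hr), up' r hr⟩
    rw [← hN, hN'] at h2
    obtain ⟨c, hc, ec⟩ := exists_hasDerivAt_eq_slope X.g (fun r => -X.k r) one_lt_two
      (fun r hr => (X.dk0 r (one_pos.trans_le hr.1)).continuousAt.continuousWithinAt)
      (fun r hr => X.dk0 r (one_pos.trans hr.1))
    have hc0 := one_pos.trans hc.1
    have h3 : 2 * A * X.k c ≤ lam := by
      have := mul_le_mul_of_nonneg_left (lo 2 two_pos) (show 0 ≤ 2 * A by positivity)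
      have := up 1 one_pos
      have e : X.k c = X.g 1 - X.g 2 := by linarith
      rw [e]
      linarith
    have h4 : A * X.k c = X.y c + (2 * A * X.g c - X.w c) / c -
        A * ((X.g c - X.κ) * (X.g c + X.κ)) := by
      have e : X.μ = A * X.κ ^ 2 := by rw [X.κ_sq, hXA]; field_simp
      unfold Rad.k Rad.W
      rw [e, hXA]
      field_simp
      ring
    have h5 : -lam ≤ (2 * A * X.g c - X.w c) / c := by
      have := mul_le_mul_of_nonneg_left (lo c hc0) (show 0 ≤ 2 * A by positivity)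
      have := hXz ▸ X.wle c hc0
      rw [le_div_iff₀ hc0]
      nlinarith [hc.1]
    have h6 : 2 * A * (X.g c - X.κ) * (X.g c + X.κ) ≤ lam * (2 * a) :=
      mul_le_mul (by linarith [up c hc0]) (by linarith [lo c hc0, up' c hc0])
        (by linarith [lo c hc0]) hl0.le
    have h7 : X.y 2 ≤ X.y c := ant hc0 hc.2.le X.dy fun u h _ => neg_nonpos.2
      (mul_nonneg (mul_nonneg X.hq.le (X.g_nonneg (hc0.trans_le h))) (X.ypos (hc0.trans_le h)).le)
    have h8 : γ * (lam / C) ^ (q / 2) ≤ X.y 2 := by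
      unfold Rad.y
      rw [hXγ, hXq]
      refine mul_le_mul_of_nonneg_left ?_ hγ.le
      have := Real.rpow_le_rpow (by positivity) ((div_le_iff₀' hC).2 h2) (half_pos hq).le
      rwa [← Real.rpow_natCast, ← Real.rpow_mul (X.pos 2 two_pos).le,
        show ((2 : ℕ) : ℝ) * (q / 2) = q by push_cast; ring] at this
    have h9 := mul_lt_mul_of_pos_right l2 (Real.rpow_pos_of_pos (div_pos hl0 hC) (q / 2))
    rw [mul_assoc, ← Real.rpow_add (div_pos hl0 hC), sub_add_cancel, Real.rpow_one,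
      show (3 / 2 + a) * C * (lam / C) = (3 / 2 + a) * lam by field_simp] at h9
    linarith

end Pool.Agent.P.MP_3d36e1_mp.G
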