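import Pool.Agent.P.MP_3d36e1_mp.G.Sol
import Pool.Agent.P.MP_3d36e1_mp.G.Ex
import Pool.Agent.P.MP_3d36e1_mp.Lc.Link

/-! The continuous radial root of a minimiser solves the radial system. -/

set_option autoImplicit false

namespace Pool.Agent.P.MP_3d36e1_mp.G

open MeasureTheory Set Filter Topology Lc

lemma root_unique {ρ : R3 → ℝ} {ψ Ψ : ℝ → ℝ} (c1 : ContinuousOn ψ (Ici 0))
    (c2 : ContinuousOn Ψ (Ici 0)) (h1 : ∀ᵐ x, √(ρ x) = ψ ‖x‖) (h2 : ∀ᵐ x, √(ρ x) = Ψ ‖x‖) :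
    EqOn ψ Ψ (Ici 0) := by
  have e : (fun x : R3 => ψ ‖x‖) = fun x : R3 => Ψ ‖x‖ := by
    refine (Continuous.ae_eq_iff_eq volume
      (c1.comp_continuous continuous_norm fun x => norm_nonneg x)
      (c2.comp_continuous continuous_norm fun x => norm_nonneg x)).1 ?_
    filter_upwards [h1, h2] with x a b using a.symm.trans b
  intro r hr
  obtain ⟨x, rfl⟩ := exists_norm_eq R3 (c := r) hr
  exact congrFun e x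

theorem root {A γ p z lam : ℝ} {ρ : R3 → ℝ} (hp : 1 < p) (hA : 0 < A) (hγ : 0 < γ) (hz : 0 < z)
    (hlam : 0 < lam) (h : IsMinimiser A γ p z lam ρ) :
    ∃ (X : Rad) (Ψ : ℝ → ℝ), X.A = A ∧ X.γ = γ ∧ X.q = 2 * p - 2 ∧ X.z = z ∧
      IntegrableOn (fun r => 4 * Real.pi * (r * X.ψ r) ^ 2) (Ioi 0) ∧
      ∫ x, ρ x = ∫ r in Ioi (0 : ℝ), 4 * Real.pi * (r * X.ψ r) ^ 2 ∧ X.L = z - ∫ x, ρ x ∧
      ∫ x, ρ x ≤ lam ∧ (∫ x, ρ x < lam → X.μ = 0) ∧ (∀ r, 0 < r → Ψ r = X.ψ r) ∧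
      ContinuousOn Ψ (Ici 0) ∧ (∀ r, 0 ≤ r → 0 < Ψ r) ∧
      (ConvexOn ℝ (Ici 0) (fun r => Real.log (Ψ r)) ↔ ∀ r, 0 < r → 0 ≤ X.k r) ∧
      ∀ᵐ x, √(ρ x) = Ψ ‖x‖ := by
  obtain ⟨μ, U, U1, h1, h2, h3, h4, h5, h6, h7, h8, h9, h10, -⟩ :=
    minsol hp hA hγ hz hlam h (radial hp hA hγ hz h)
  obtain ⟨X, x1, x2, x3, x4, x5, x6, x7, -⟩ :=
    exists_rad hA hγ (show 0 < 2 * p - 2 by linarith) h1 hz h3 h4 h5 h6 h7
  obtain ⟨Ψ, e, c, hpos, hk⟩ := X.extend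
  have eU : EqOn (fun r => 4 * Real.pi * U r ^ 2) (fun r => 4 * Real.pi * (r * X.ψ r) ^ 2)
      (Ioi 0) := fun r hr => by
    have : r ≠ 0 := ne_of_gt hr
    simp only [x7]
    field_simp
  have hne : ∀ᵐ x : R3, x ≠ 0 := by simp [ae_iff]
  refine ⟨X, Ψ, x1, x2, x3, x5, IntegrableOn.congr_fun (h4.const_mul _) eU measurableSet_Ioi,
    h8.trans (setIntegral_congr_fun measurableSet_Ioi eU), h8 ▸ x6, h9, fun hl => x4.trans (h2 hl),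
    e, c, hpos, hk, ?_⟩
  filter_upwards [h10, hne] with x a b
  rw [a, e _ (norm_pos_iff.2 b), x7]

theorem exists_root {A γ p z lam : ℝ} (hp : 1 < p) (hA : 0 < A) (hγ : 0 < γ) (hz : 0 < z)
    (hlam : 0 < lam) : ∃ (ρ : R3 → ℝ) (ψ : ℝ → ℝ), IsMinimiser A γ p z lam ρ ∧
      ContinuousOn ψ (Ici 0) ∧ (∀ r, 0 ≤ r → 0 < ψ r) ∧ ∀ᵐ x, √(ρ x) = ψ ‖x‖ := by
  obtain ⟨ρ, h⟩ := exists_minimiser hp hA hγ hz hlam
  obtain ⟨X, Ψ, -, -, -, -, -, -, -, -, -, -, c, hpos, -, hl⟩ := root hp hA hγ hz hlam h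
  exact ⟨ρ, Ψ, h, c, hpos, hl⟩

end Pool.Agent.P.MP_3d36e1_mp.G
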