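import Pool.Agent.P.MP_3d36e1_mp.G.Weak
import Pool.Agent.P.MP_97b9bc_mp.T.TBCO
import Pool.Agent.P.MP_97b9bc_mp.T.TPOS
import Pool.Agent.P.MP_97b9bc_mp.T.TNZ

/-! From a radial minimiser to a positive classical solution of the radial equation. -/

set_option autoImplicit false

namespace Pool.Agent.P.MP_3d36e1_mp.G

open MeasureTheory Set Filter Topology
open scoped ContDiff
open MP_97b9bc_mp.T hiding Lam coef Weak Clas

lemma bc_bound {A γ p μ u w r k W : ℝ} (hp1 : 1 < p) (hr : 0 < r) (hr2 : r ≤ 2) (hu : 0 ≤ u) (hw : |w| ≤ W)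
    (hk0 : 0 ≤ k) (hk1 : k ≤ 1) :
    |(γ * (u / r) ^ (2 * p - 2) - w / r + μ) / A * u * (r * k)| ≤
      |A|⁻¹ * (|γ| * (4 + r ^ 2 * (u / r) ^ (2 * p)) + (W + 2 * |μ|) * (1 + u ^ 2)) := by
  have ht : 0 ≤ u / r := div_nonneg hu hr.le
  have e : (γ * (u / r) ^ (2 * p - 2) - w / r + μ) / A * u * (r * k) =
      A⁻¹ * ((γ * (r ^ 2 * ((u / r) ^ (2 * p - 2) * (u / r))) - w * u + μ * (r * u)) * k) := by
    have := hr.ne'
    rw [div_eq_mul_inv _ A]
    field_simp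
  rw [e, abs_mul, abs_inv]
  refine mul_le_mul_of_nonneg_left ?_ (by positivity)
  have hp := pow_odd hp1 ht
  have hp0 : 0 ≤ (u / r) ^ (2 * p - 2) * (u / r) := mul_nonneg (Real.rpow_nonneg ht _) ht
  have hq0 : 0 ≤ (u / r) ^ (2 * p) := Real.rpow_nonneg ht _
  have hu2 : u ≤ 1 + u ^ 2 := by nlinarith
  have hW : 0 ≤ W := (abs_nonneg _).trans hw
  have h1 : |γ * (r ^ 2 * ((u / r) ^ (2 * p - 2) * (u / r)))| ≤
      |γ| * (4 + r ^ 2 * (u / r) ^ (2 * p)) := by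
    rw [abs_mul, abs_of_nonneg (mul_nonneg (sq_nonneg r) hp0)]
    refine mul_le_mul_of_nonneg_left ?_ (abs_nonneg _)
    have h4 : r ^ 2 ≤ 4 := by nlinarith
    have := mul_le_mul_of_nonneg_left hp (sq_nonneg r)
    linarith
  have h2 : |w * u| ≤ W * (1 + u ^ 2) := by
    rw [abs_mul, abs_of_nonneg hu]
    exact mul_le_mul hw hu2 hu hW
  have h3 : |μ * (r * u)| ≤ 2 * |μ| * (1 + u ^ 2) := by
    rw [abs_mul, abs_of_nonneg (mul_nonneg hr.le hu)]
    have : r * u ≤ 2 * (1 + u ^ 2) := mul_le_mul hr2 hu2 hu (by norm_num)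
    have := mul_le_mul_of_nonneg_left this (abs_nonneg μ)
    linarith
  rw [abs_mul, abs_of_nonneg hk0]
  have h4 := abs_add_le (γ * (r ^ 2 * ((u / r) ^ (2 * p - 2) * (u / r))) - w * u) (μ * (r * u))
  have h5 := abs_sub (γ * (r ^ 2 * ((u / r) ^ (2 * p - 2) * (u / r)))) (w * u)
  have h6 := mul_le_of_le_one_right (abs_nonneg
    (γ * (r ^ 2 * ((u / r) ^ (2 * p - 2) * (u / r))) - w * u + μ * (r * u))) hk1
  linarith

theorem bco {A γ p z μ : ℝ} {U U1 : ℝ → ℝ} (hp : 1 < p) (hC : Clas A γ p z μ U U1) :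
    Tendsto (fun r => U r - r * U1 r) (𝓝[>] 0) (𝓝 0) := by
  obtain ⟨h, hT, hb, h1, h2⟩ := bco_bump
  have hw := hC.weak
  obtain ⟨wc, -, -, wb⟩ := p_WPA z (fun s => 4 * Real.pi * U s ^ 2) (hw.L2.const_mul _)
    (fun r _ => by positivity)
  have hd0 : Differentiable ℝ h := hT.1.differentiable (by simp)
  have hT1 : ContDiff ℝ ∞ (deriv h) := (contDiff_infty_iff_deriv.1 hT.1).2
  have hd1 : Differentiable ℝ (deriv h) := hT1.differentiable (by simp)
  have hc2 : Continuous (deriv (deriv h)) := (contDiff_infty_iff_deriv.1 hT1).2.continuous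
  have hc1 : Continuous (deriv h) := hd1.continuous
  have hc0 : Continuous h := hd0.continuous
  have cU : ContinuousOn U (Ioi 0) := fun r hr => (hC.d1 r hr).continuousAt.continuousWithinAt
  set F1 : ℝ → ℝ := fun r =>
    U r * (4 * r ^ 3 * deriv (deriv h) (r ^ 2) + 6 * r * deriv h (r ^ 2)) with hF1
  set F2 : ℝ → ℝ := fun r => coef A γ p z μ U r * U r * (r * h (r ^ 2)) with hF2
  have i1 : IntegrableOn F1 (Ioi 0) := by
    have c1 : ContinuousOn F1 (Icc 1 2) :=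
      (cU.mono fun r hr => lt_of_lt_of_le one_pos hr.1).mul (by fun_prop)
    refine c1.integrableOn_Icc.of_forall_sdiff_eq_zero measurableSet_Ioi ?_
    rintro r ⟨hr0, hr⟩
    have hr0' : 0 < r := hr0
    rw [mem_Icc, not_and_or, not_le, not_le] at hr
    rcases hr with hr | hr
    · obtain ⟨-, a, b⟩ := h1 (r ^ 2) (sq_nonneg r) (by nlinarith)
      simp [hF1, a, b]
    · obtain ⟨-, a, b⟩ := h2 (r ^ 2) (by nlinarith)
      simp [hF1, a, b]
  have i2 : IntegrableOn F2 (Ioi 0) := by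
    have c2 : ContinuousOn F2 (Ioi 0) := by
      refine (ContinuousOn.mul ?_ cU).mul (by fun_prop)
      unfold coef
      refine ContinuousOn.div_const (((continuousOn_const.mul ?_).sub ?_).add continuousOn_const) _
      · exact (cU.div continuousOn_id fun r hr => ne_of_gt hr).rpow_const
          fun r _ => Or.inr (by linarith)
      · exact wc.div continuousOn_id fun r hr => ne_of_gt hr
    have j : IntegrableOn F2 (Ioc 0 2) := by
      have k1 : IntegrableOn (fun _ : ℝ => (1 : ℝ)) (Ioc 0 2) := integrableOn_const (by simp)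
      have k4 : IntegrableOn (fun _ : ℝ => (4 : ℝ)) (Ioc 0 2) := integrableOn_const (by simp)
      have k := (((k4.add (hw.Lp.mono_set Ioc_subset_Ioi_self)).const_mul |γ|).add
        ((k1.add (hw.L2.mono_set Ioc_subset_Ioi_self)).const_mul
          (|z| + |∫ s in Ioi (0 : ℝ), 4 * Real.pi * U s ^ 2| + 2 * |μ|))).const_mul |A|⁻¹
      refine Integrable.mono' k
        ((c2.mono Ioc_subset_Ioi_self).aestronglyMeasurable measurableSet_Ioc) ?_
      refine (ae_restrict_iff' measurableSet_Ioc).2 (Eventually.of_forall fun r hr => ?_)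
      obtain ⟨a, b⟩ := wb r hr.1
      refine bc_bound hp hr.1 hr.2 (hw.nonneg r hr.1) (abs_le.2 ⟨?_, ?_⟩) (hb _).1 (hb _).2
      · have := neg_abs_le z
        have := le_abs_self (∫ s in Ioi (0 : ℝ), 4 * Real.pi * U s ^ 2)
        linarith
      · have := le_abs_self z
        have := abs_nonneg (∫ s in Ioi (0 : ℝ), 4 * Real.pi * U s ^ 2)
        linarith
    refine j.of_forall_sdiff_eq_zero measurableSet_Ioi ?_
    rintro r ⟨hr0, hr⟩
    have hr0' : 0 < r := hr0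
    have hr2 : 2 < r := by
      by_contra hh
      exact hr ⟨hr0', not_lt.1 hh⟩
    obtain ⟨a, -, -⟩ := h2 (r ^ 2) (by nlinarith)
    simp [hF2, a]
  have iG : IntegrableOn (fun r => F1 r - F2 r) (Ioi 0) := i1.sub i2
  have zG : ∫ r in Ioi (0 : ℝ), (F1 r - F2 r) = 0 := by
    rw [integral_sub i1 i2, sub_eq_zero]
    exact hw.eq h hT
  set W : ℝ → ℝ := fun r =>
    U r * (h (r ^ 2) + 2 * r ^ 2 * deriv h (r ^ 2)) - U1 r * (r * h (r ^ 2)) with hW
  have dW : ∀ r, 0 < r → HasDerivAt W (F1 r - F2 r) r := by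
    intro r hr
    have s2 : HasDerivAt (fun r : ℝ => r ^ 2) (2 * r) r := by
      simpa using hasDerivAt_pow 2 r
    have a0 : HasDerivAt (fun r : ℝ => h (r ^ 2)) (deriv h (r ^ 2) * (2 * r)) r :=
      (hd0 (r ^ 2)).hasDerivAt.comp r s2
    have a1 : HasDerivAt (fun r : ℝ => deriv h (r ^ 2)) (deriv (deriv h) (r ^ 2) * (2 * r)) r :=
      HasDerivAt.comp (h₂ := deriv h) (h := fun r : ℝ => r ^ 2) r (hd1 (r ^ 2)).hasDerivAt s2
    have := ((hC.d1 r hr).fun_mul (a0.fun_add ((s2.const_mul 2).fun_mul a1))).fun_sub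
      ((hC.d2 r hr).fun_mul ((hasDerivAt_id' r).fun_mul a0))
    refine HasDerivAt.congr_deriv (f := W) this ?_
    simp only [hF1, hF2]
    ring
  have W0 : Tendsto W atTop (𝓝 0) := by
    refine tendsto_const_nhds.congr' ?_
    filter_upwards [eventually_gt_atTop 2] with r hr
    obtain ⟨a, b, -⟩ := h2 (r ^ 2) (by nlinarith)
    simp [hW, a, b]
  have key : Tendsto (fun b => -∫ r in Ioi b, (F1 r - F2 r)) (𝓝[>] 0) (𝓝 0) := by
    have := (iG.continuousWithinAt_Ici_primitive_Ioi.mono_left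
      (nhdsWithin_mono 0 Ioi_subset_Ici_self)).neg
    simpa only [zG, neg_zero] using this
  refine key.congr' ?_
  filter_upwards [Ioo_mem_nhdsGT one_pos] with b hb'
  have hb0 : 0 < b := hb'.1
  have hb1 : b < 1 := hb'.2
  rw [integral_Ioi_of_hasDerivAt_of_tendsto (dW b hb0).continuousAt.continuousWithinAt
    (fun r hr => dW r (hb0.trans hr)) (iG.mono_set (Ioi_subset_Ioi hb0.le)) W0]
  obtain ⟨a, c, -⟩ := h1 (b ^ 2) (sq_nonneg b) (by nlinarith)
  simp only [hW, a, c]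
  ring

lemma nz_small' {p c d n R lam : ℝ} (hp : 1 < p) (hR : 0 < R) (hl : 0 < lam) :
    ∃ a : ℝ, 0 < a ∧ a * n ≤ lam ∧ c * a ^ (p - 1) + a * d < R := by
  have h1 : ContinuousAt (fun a : ℝ => c * a ^ (p - 1) + a * d) 0 :=
    ((Real.continuousAt_rpow_const 0 _ (Or.inr (by linarith))).const_mul c).add
      (continuousAt_id.mul_const d)
  have h2 : ContinuousAt (fun a : ℝ => a * n) 0 := continuousAt_id.mul_const n
  have e1 : ∀ᶠ a in 𝓝 (0 : ℝ), c * a ^ (p - 1) + a * d < R :=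
    h1.eventually_lt continuousAt_const (by
      simpa [Real.zero_rpow (show p - 1 ≠ 0 by linarith)] using hR)
  have e2 : ∀ᶠ a in 𝓝 (0 : ℝ), a * n < lam := h2.eventually_lt continuousAt_const (by simpa using hl)
  obtain ⟨a, ⟨ha1, ha2⟩, ha⟩ := (((e1.and e2).filter_mono
    (nhdsWithin_le_nhds (s := Ioi (0 : ℝ)))).and self_mem_nhdsWithin).exists
  exact ⟨a, ha, ha2.le, ha1⟩

lemma nz_neg' {A γ p z lam : ℝ} (hp : 1 < p) (hA : 0 < A) (hz : 0 < z) (hl : 0 < lam) :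
    ∃ ρ g, Admissible p lam ρ g ∧ energy A γ p z ρ g < 0 := by
  obtain ⟨u, hu0, hu, hus, hV0⟩ := nz_bump
  set P := ∫ x, (u x ^ 2) ^ p with hP
  set V := ∫ x, 1 / ‖x‖ * u x ^ 2 with hV
  set N := ∫ x, u x ^ 2 with hN
  set K := ∫ x, ‖gradient u x‖ ^ 2 with hK
  set D := ∫ q : R3 × R3, u q.1 ^ 2 * u q.2 ^ 2 / ‖q.1 - q.2‖ with hD
  have hK0 : 0 ≤ K := integral_nonneg fun x => by positivity
  set R := (A * K + 1) / (z * V) with hR
  have hR0 : 0 < R := by positivity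
  have hRV : z * R * V = A * K + 1 := by rw [hR]; field_simp
  obtain ⟨a, ha, ha1, ha2⟩ := nz_small' hp (c := γ / p * R ^ 3 * P) (d := R ^ 5 * D / 2)
    (n := R ^ 3 * N) hR0 hl
  set ut : R3 → ℝ := fun x => √a * u (R⁻¹ • x) with hut'
  have hut0 : ∀ x, 0 ≤ ut x := fun x => mul_nonneg (Real.sqrt_nonneg _) (hu0 _)
  have hutc : ContDiff ℝ 1 ut := contDiff_const.mul (hu.comp (contDiff_id.const_smul R⁻¹))
  have huts : HasCompactSupport ut := (hus.comp_smul (inv_ne_zero hR0.ne')).mul_left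
  have hut2 : ∀ x, ut x ^ 2 = a * u (R⁻¹ • x) ^ 2 := fun x => by
    simp only [hut']; rw [mul_pow, Real.sq_sqrt ha.le]
  refine ⟨fun x => ut x ^ 2, gradient ut, admissible_of_contDiff hut0 hutc huts ?_, ?_⟩
  · simp only [hut2]
    rw [scale_mass (fun x => u x ^ 2) a hR0, mul_assoc]
    exact ha1
  · unfold energy
    simp only [hut2]
    rw [scale_grad hu ha hR0,
      scale_pow (f := fun x => u x ^ 2) (fun x => by positivity) _ ha hR0,
      scale_V (fun x => u x ^ 2) _ _ hR0,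
      scale_D (fun x => u x ^ 2) _ hR0, ← hK, ← hP, ← hV, ← hD]
    have e : a ^ p = a * a ^ (p - 1) := by
      rw [Real.rpow_sub_one ha.ne']
      field_simp
    rw [e]
    have h3 := mul_lt_mul_of_pos_left ha2 ha
    have h4 : z * a * R ^ 2 * V = a * R * (A * K + 1) := by rw [← hRV]; ring
    rw [h4]
    linarith

theorem nz {A γ p z lam : ℝ} {ρ : R3 → ℝ} {g : R3 → R3} (hp : 1 < p) (hA : 0 < A)
    (hγ : 0 < γ) (hz : 0 < z) (hl : 0 < lam) (h : Admissible p lam ρ g)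
    (hmin : ∀ ρ' g', Admissible p lam ρ' g' → energy A γ p z ρ g ≤ energy A γ p z ρ' g') :
    0 < ∫ x, ρ x := by
  refine lt_of_le_of_ne (integral_nonneg h.nonneg) fun e => ?_
  obtain ⟨ρ', g', h1, h2⟩ := nz_neg' (γ := γ) hp hA hz hl
  have h3 := (hmin ρ' g' h1).trans_lt h2
  have h0 : ρ =ᵐ[volume] 0 := (integral_eq_zero_iff_of_nonneg h.nonneg h.L1).1 e.symm
  have hV : ∫ x, z / ‖x‖ * ρ x = 0 := by
    rw [← integral_zero R3 ℝ (μ := volume)]
    apply integral_congr_ae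
    filter_upwards [h0] with x hx
    simp only [Pi.zero_apply] at hx
    simp only [hx, mul_zero]
  have c0 := h.coulomb_nonneg
  have k0 : 0 ≤ ∫ x, ‖g x‖ ^ 2 := integral_nonneg fun x => by positivity
  have p0 : 0 ≤ ∫ x, ρ x ^ p :=
    integral_nonneg fun x => Real.rpow_nonneg (h.nonneg x) _
  unfold energy at h3
  rw [hV] at h3
  have := mul_nonneg hA.le k0
  have := mul_nonneg (div_pos hγ (zero_lt_one.trans hp)).le p0
  linarith

lemma ae_rad {u U : ℝ → ℝ} (h : ∀ᵐ r ∂(volume.restrict (Ioi (0 : ℝ))), u r = U r) :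
    ∀ᵐ x : R3, u ‖x‖ = U ‖x‖ := by
  have h1 : ∀ᵐ r ∂(volume.restrict (Ioi (0 : ℝ))), r ^ 2 * |u r - U r| = 0 :=
    h.mono fun r hr => by simp [hr]
  have h2 : Integrable fun x : R3 => |u ‖x‖ - U ‖x‖| :=
    (rad_integrable fun r => |u r - U r|).2
      ((integrable_zero ℝ ℝ _).congr (h1.mono fun r hr => hr.symm))
  have h3 : ∫ x : R3, |u ‖x‖ - U ‖x‖| = 0 := by
    rw [rad_int fun r => |u r - U r|, integral_congr_ae h1]
    simp
  filter_upwards [(integral_eq_zero_iff_of_nonneg (fun x => abs_nonneg _) h2).1 h3] with x hx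
  exact sub_eq_zero.1 (abs_eq_zero.1 hx)

theorem minsol {A γ p z lam : ℝ} {ρ : R3 → ℝ} (hp : 1 < p) (hA : 0 < A) (hγ : 0 < γ) (hz : 0 < z)
    (hlam : 0 < lam) (h : IsMinimiser A γ p z lam ρ) (hf : ∃ f : ℝ → ℝ, ∀ᵐ x, ρ x = f ‖x‖) :
    ∃ (μ : ℝ) (U U1 : ℝ → ℝ), 0 ≤ μ ∧ (∫ x, ρ x < lam → μ = 0) ∧ (∀ r, 0 < r → 0 < U r) ∧
      IntegrableOn (fun r => U r ^ 2) (Ioi 0) ∧ (∀ r, 0 < r → HasDerivAt U (U1 r) r) ∧
      (∀ r, 0 < r → HasDerivAt U1 ((γ * (U r / r) ^ (2 * p - 2) -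
        wOf z (fun s => 4 * Real.pi * U s ^ 2) r / r + μ) / A * U r) r) ∧
      Tendsto (fun r => U r - r * U1 r) (𝓝[>] 0) (𝓝 0) ∧
      ∫ x, ρ x = ∫ r in Ioi (0 : ℝ), 4 * Real.pi * U r ^ 2 ∧ ∫ x, ρ x ≤ lam ∧
      (∀ᵐ x, √(ρ x) = U ‖x‖ / ‖x‖) ∧ ∀ x : R3, x ≠ 0 → ∫ y, ρ y / ‖x - y‖ =
        z / ‖x‖ - wOf z (fun s => 4 * Real.pi * U s ^ 2) ‖x‖ / ‖x‖ := by
  obtain ⟨g, hg, hmin⟩ := h
  obtain ⟨f, hf⟩ := hf
  obtain ⟨μ, hμ, hμ0, hel⟩ := el hp hA hγ hz hlam hg hmin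
  obtain ⟨u, hu, hl, hpot⟩ := weak hp hA hg hf hel
  obtain ⟨U, U1, hU, hae⟩ := cls hp hu
  have hl' : ∀ᵐ x, √(ρ x) = U ‖x‖ / ‖x‖ := by
    filter_upwards [hl, ae_rad hae] with x h1 h2
    rw [h1, h2]
  have hint : ∫ x, ρ x = ∫ r in Ioi (0 : ℝ), 4 * Real.pi * U r ^ 2 := by
    rw [integral_congr_ae (g := fun x : R3 => (U ‖x‖ / ‖x‖) ^ 2) (hl'.mono fun x hx => by
      simp only [← hx, Real.sq_sqrt (hg.nonneg x)]), rad_int fun r => (U r / r) ^ 2,
      integral_const_mul]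
    congr 1
    refine setIntegral_congr_fun measurableSet_Ioi fun r hr => ?_
    have : r ≠ 0 := ne_of_gt hr
    field_simp
  have hweq : (wOf z fun s => 4 * Real.pi * u s ^ 2) = wOf z fun s => 4 * Real.pi * U s ^ 2 := by
    funext r
    unfold wOf
    congr 1
    exact integral_congr_ae (hae.mono fun s hs => by simp only [hs])
  have cU : ContinuousOn U (Ioi 0) := fun r hr => (hU.d1 r hr).continuousAt.continuousWithinAt
  have cw := (p_WPA z (fun s => 4 * Real.pi * U s ^ 2) (hU.weak.L2.const_mul _)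
    (fun r _ => by positivity)).1
  have h0 : ∀ r ∈ Ioi (0 : ℝ), r ≠ 0 := fun r hr => ne_of_gt hr
  have cc' : ContinuousOn (coef A γ p z μ U) (Ioi 0) := by
    unfold coef
    exact (((continuousOn_const.mul ((cU.div continuousOn_id h0).rpow_const
      fun _ _ => Or.inr (by linarith))).sub (cw.div continuousOn_id h0)).add
      continuousOn_const).div_const A
  rcases p_POS _ U U1 cc' hU.weak.nonneg hU.d1 hU.d2 with hpos | hpos
  · exact ⟨μ, U, U1, hμ, hμ0, hpos, hU.weak.L2, hU.d1, hU.d2, bco hp hU, hint, hg.mass, hl',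
      fun x hx => hweq ▸ hpot x hx⟩
  · have := nz hp hA hγ hz hlam hg hmin
    rw [hint, setIntegral_eq_zero_of_forall_eq_zero fun r hr => by rw [hpos r hr]; simp] at this
    exact absurd this (lt_irrefl _)

end Pool.Agent.P.MP_3d36e1_mp.G
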