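import Pool.Agent.P.MP_3d36e1_mp.G.El
import Pool.Agent.P.MP_97b9bc_mp.T.TLAP
import Pool.Agent.P.MP_97b9bc_mp.T.TNEW
import Pool.Agent.P.MP_97b9bc_mp.T.TMEAS
import Pool.Agent.P.MP_97b9bc_mp.T.TWEAK
import Pool.Agent.P.MP_97b9bc_mp.T.TTST
import Pool.Agent.P.MP_97b9bc_mp.T.TPRIM
import Pool.Agent.P.MP_97b9bc_mp.T.TDBRO
import Pool.Agent.P.MP_97b9bc_mp.T.TPART
import Pool.Agent.P.MP_97b9bc_mp.T.TDBR
import Pool.Agent.P.MP_97b9bc_mp.T.TWPA
import Pool.Agent.P.MP_97b9bc_mp.T.TCLS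

/-! The weak and the classical radial equation for every exponent above one. -/

set_option autoImplicit false

namespace Pool.Agent.P.MP_3d36e1_mp.G

open MeasureTheory Set Filter Topology
open MP_97b9bc_mp.T hiding Lam coef Weak Clas

/-- the coefficient of the radial equation -/
noncomputable def coef (A γ p z μ : ℝ) (u : ℝ → ℝ) (r : ℝ) : ℝ :=
  (γ * (u r / r) ^ (2 * p - 2) - wOf z (fun s => 4 * Real.pi * u s ^ 2) r / r + μ) / A

/-- the weak radial equation for `u = r ψ` -/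
structure Weak (A γ p z μ : ℝ) (u : ℝ → ℝ) : Prop where
  meas : Measurable u
  nonneg : ∀ r, 0 < r → 0 ≤ u r
  L2 : IntegrableOn (fun r => u r ^ 2) (Ioi 0)
  Lp : IntegrableOn (fun r => r ^ 2 * (u r / r) ^ (2 * p)) (Ioi 0)
  eq : ∀ h : ℝ → ℝ, Test h →
    ∫ r in Ioi (0 : ℝ), u r * (4 * r ^ 3 * deriv (deriv h) (r ^ 2) + 6 * r * deriv h (r ^ 2)) =
      ∫ r in Ioi (0 : ℝ), coef A γ p z μ u r * u r * (r * h (r ^ 2))

/-- the classical radial equation -/
structure Clas (A γ p z μ : ℝ) (u u1 : ℝ → ℝ) : Prop where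
  weak : Weak A γ p z μ u
  d1 : ∀ r, 0 < r → HasDerivAt u (u1 r) r
  d2 : ∀ r, 0 < r → HasDerivAt u1 (coef A γ p z μ u r * u r) r

theorem weak {A γ p z lam μ : ℝ} {ρ : R3 → ℝ} {g : R3 → R3} {f : ℝ → ℝ} (hp : 1 < p) (hA : 0 < A)
    (hρ : Admissible p lam ρ g) (hf : ∀ᵐ x, ρ x = f ‖x‖)
    (hEL : ∀ η : R3 → ℝ, Test η → Lam A γ p z ρ g η + μ * ∫ x, √(ρ x) * η x = 0) :
    ∃ u, Weak A γ p z μ u ∧ (∀ᵐ x, √(ρ x) = u ‖x‖ / ‖x‖) ∧
      ∀ x : R3, x ≠ 0 →
        pot ρ x = z / ‖x‖ - wOf z (fun s => 4 * Real.pi * u s ^ 2) ‖x‖ / ‖x‖ := by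
  obtain ⟨f1, hm, h0, hf1⟩ := p_MEAS ρ f hρ.L1.aestronglyMeasurable hρ.nonneg hf
  have hI1 : IntegrableOn (fun r => r ^ 2 * f1 r) (Ioi (0 : ℝ)) :=
    (rad_integrable f1).1 (hρ.L1.congr hf1)
  have hI2 : IntegrableOn (fun r => r ^ 2 * f1 r ^ p) (Ioi (0 : ℝ)) :=
    (rad_integrable (fun r => f1 r ^ p)).1
      ((hρ.integrable_rpow (by linarith)).congr (hf1.mono fun x hx => by simp only [hx]))
  have hdiv : ∀ r : ℝ, 0 < r → r * √(f1 r) / r = √(f1 r) := fun r hr => by
    field_simp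
  have hpot : ∀ x : R3, x ≠ 0 →
      pot ρ x = 4 * Real.pi * ∫ s in Ioi (0 : ℝ), s ^ 2 * f1 s / max ‖x‖ s := fun x hx => by
    rw [← p_NEW f1 hm h0 hI1 x hx]
    exact integral_congr_ae (hf1.mono fun y hy => by simp only [hy])
  have hne : ∀ᵐ x : R3, x ≠ 0 := by simp [ae_iff]
  refine ⟨fun r => r * √(f1 r),
    ⟨measurable_id.mul hm.sqrt, fun r hr => by positivity, ?_, ?_, ?_⟩, ?_, fun x hx => ?_⟩
  · simp only [weak_sq (h0 _)]
    exact hI1
  · refine hI2.congr_fun (fun r hr => ?_) measurableSet_Ioi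
    simp only [hdiv r hr]
    rw [weak_rpow (h0 r)]
  · intro h hh
    obtain ⟨hη, hlap⟩ := p_LAP (fun x => √(ρ x)) g h hρ.grad
      (memLp_sqrt hρ.nonneg hρ.L1) hρ.grad_L2 hh
    have i1 := (p_INT p_COU lam ρ g _ (adm53 hρ) hη).2.1
    have i5 := int_V hp hρ γ z hη
    have hE := hEL _ hη
    unfold Lam at hE
    rw [hlap] at hE
    set P : ℝ → ℝ := fun r => 4 * Real.pi * ∫ s in Ioi (0 : ℝ), s ^ 2 * f1 s / max r s with hP
    have e1 : ∫ x : R3, √(ρ x) *
        (4 * ‖x‖ ^ 2 * deriv (deriv h) (‖x‖ ^ 2) + 6 * deriv h (‖x‖ ^ 2)) =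
        4 * Real.pi * ∫ r in Ioi (0 : ℝ), r * √(f1 r) *
          (4 * r ^ 3 * deriv (deriv h) (r ^ 2) + 6 * r * deriv h (r ^ 2)) := by
      have := rad_int (fun r => √(f1 r) *
        (4 * r ^ 2 * deriv (deriv h) (r ^ 2) + 6 * deriv h (r ^ 2)))
      rw [integral_congr_ae (hf1.mono fun x hx => by rw [hx]), this]
      congr 2
      funext r
      ring
    have e2 : (∫ x : R3, (γ * ρ x ^ (p - 1) - z / ‖x‖ + pot ρ x) * (√(ρ x) * h (‖x‖ ^ 2))) +
        μ * ∫ x : R3, √(ρ x) * h (‖x‖ ^ 2) =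
        4 * Real.pi * (A * ∫ r in Ioi (0 : ℝ), coef A γ p z μ (fun r => r * √(f1 r)) r *
          (r * √(f1 r)) * (r * h (r ^ 2))) := by
      have := rad_int (fun r => (γ * f1 r ^ (p - 1) - z / r + P r + μ) *
        (√(f1 r) * h (r ^ 2)))
      rw [← integral_const_mul μ, ← integral_add i5 (i1.const_mul μ), ← integral_const_mul A,
        setIntegral_congr_fun (g := fun r => r ^ 2 * ((γ * f1 r ^ (p - 1) - z / r + P r + μ) *
          (√(f1 r) * h (r ^ 2)))) measurableSet_Ioi (fun r hr => ?_), ← this]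
      · refine integral_congr_ae ?_
        filter_upwards [hf1, hne] with x hx hx0
        rw [hpot x hx0, hx]
        ring
      · have hr' : 0 < r := hr
        unfold coef
        simp only [hdiv r hr', weak_w h0 z hr']
        rw [show 2 * p - 2 = 2 * (p - 1) by ring, weak_rpow (h0 r)]
        field_simp
        ring
    rw [add_assoc, e2, e1] at hE
    have hc : 4 * Real.pi * A ≠ 0 := by positivity
    apply mul_left_cancel₀ hc
    linarith
  · filter_upwards [hf1, hne] with x hx hx0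
    rw [hx, hdiv _ (norm_pos_iff.2 hx0)]
  · rw [weak_w h0 z (norm_pos_iff.2 hx), hpot x hx]
    ring

lemma pow_odd {p x : ℝ} (hp : 1 < p) (hx : 0 ≤ x) : x ^ (2 * p - 2) * x ≤ 1 + x ^ (2 * p) := by
  rw [← Real.rpow_add_one' hx (by linarith)]
  have h0 := Real.rpow_nonneg hx (2 * p)
  rcases le_total x 1 with h | h
  · linarith [Real.rpow_le_one hx h (show 0 ≤ 2 * p - 2 + 1 by linarith)]
  · linarith [Real.rpow_le_rpow_of_exponent_le h (show 2 * p - 2 + 1 ≤ 2 * p by linarith)]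

theorem cls {A γ p z μ : ℝ} {u : ℝ → ℝ} (hp : 1 < p) (hu : Weak A γ p z μ u) :
    ∃ U U1 : ℝ → ℝ, Clas A γ p z μ U U1 ∧ ∀ᵐ r ∂(volume.restrict (Ioi (0 : ℝ))), u r = U r := by
  have hm := hu.meas
  have hlc : IsLocallyClosed (Ioi (0 : ℝ)) := isOpen_Ioi.isLocallyClosed
  have hinv : ContinuousOn (fun r : ℝ => r⁻¹) (Ioi 0) :=
    continuousOn_id.inv₀ fun r hr => ne_of_gt hr
  have hw : ContinuousOn (wOf z fun s => 4 * Real.pi * u s ^ 2) (Ioi 0) :=
    (p_WPA z _ (hu.L2.const_mul _) (fun r _ => by positivity)).1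
  have l1 : LocallyIntegrableOn u (Ioi 0) := by
    refine cls_mono (f := fun r => 1 + u r ^ 2)
      ((continuousOn_const.locallyIntegrableOn measurableSet_Ioi).add hu.L2.locallyIntegrableOn)
      hm (fun r hr => ?_)
    rw [abs_of_nonneg (hu.nonneg r hr)]
    nlinarith [sq_nonneg (u r - 1)]
  have l2 : LocallyIntegrableOn (fun r => (u r / r) ^ (2 * p - 2) * u r) (Ioi 0) := by
    refine cls_mono (f := fun r => r + r⁻¹ * (r ^ 2 * (u r / r) ^ (2 * p)))
      ((continuousOn_id.locallyIntegrableOn measurableSet_Ioi).add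
        (hu.Lp.locallyIntegrableOn.continuousOn_mul hinv hlc)) (by fun_prop) (fun r hr => ?_)
    have h0 := hu.nonneg r hr
    have h1 := mul_le_mul_of_nonneg_left (pow_odd hp (show 0 ≤ u r / r by positivity)) hr.le
    rw [abs_of_nonneg (by positivity)]
    have e1 : r * ((u r / r) ^ (2 * p - 2) * (u r / r)) = (u r / r) ^ (2 * p - 2) * u r := by
      field_simp
    have e2 : r * (1 + (u r / r) ^ (2 * p)) = r + r⁻¹ * (r ^ 2 * (u r / r) ^ (2 * p)) := by
      field_simp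
    rwa [e1, e2] at h1
  have l3 : LocallyIntegrableOn (fun r => coef A γ p z μ u r * u r) (Ioi 0) := by
    have e : (fun r => coef A γ p z μ u r * u r) =
        fun r => γ / A * ((u r / r) ^ (2 * p - 2) * u r) +
        (μ - wOf z (fun s => 4 * Real.pi * u s ^ 2) r * r⁻¹) / A * u r := by
      funext r; unfold coef; ring
    rw [e]
    exact (l2.continuousOn_mul continuousOn_const hlc).add
      (l1.continuousOn_mul ((continuousOn_const.sub (hw.mul hinv)).div_const A) hlc)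
  obtain ⟨U0, c, hae0, hd0⟩ := p_DBR (p_DBRO p_PRIM) p_PART u _ l1 l3 (fun χ h1 h2 => by
    obtain ⟨h, hh, he⟩ := p_TST χ h1 h2
    calc ∫ r in Ioi (0 : ℝ), u r * deriv (deriv χ) r
        = ∫ r in Ioi (0 : ℝ), u r * (4 * r ^ 3 * deriv (deriv h) (r ^ 2) +
            6 * r * deriv h (r ^ 2)) :=
          setIntegral_congr_fun measurableSet_Ioi fun r hr => by simp only [(he r hr).2]
      _ = _ := hu.eq h hh
      _ = _ := setIntegral_congr_fun measurableSet_Ioi fun r hr => by simp only [(he r hr).1])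
  classical
  set U : ℝ → ℝ := (Ioi (0 : ℝ)).piecewise U0 0 with hU
  have hUeq : ∀ r, 0 < r → U r = U0 r := fun r hr => piecewise_eq_of_mem _ _ _ hr
  have hd : ∀ r, 0 < r → HasDerivAt U (c + ∫ s in (1 : ℝ)..r, coef A γ p z μ u s * u s) r := by
    intro r hr
    refine (hd0 r hr).congr_of_eventuallyEq ?_
    filter_upwards [Ioi_mem_nhds hr] with s hs using hUeq s hs
  have hc : ContinuousOn U (Ioi 0) := fun r hr => (hd r hr).continuousAt.continuousWithinAt
  have hae : ∀ᵐ r ∂(volume.restrict (Ioi (0 : ℝ))), u r = U r := by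
    filter_upwards [hae0, ae_restrict_mem measurableSet_Ioi] with r h1 h2
    rw [h1, hUeq r h2]
  have hUm : Measurable U :=
    ContinuousOn.measurable_piecewise (fun r hr => (hd0 r hr).continuousAt.continuousWithinAt)
      continuousOn_const measurableSet_Ioi
  have hU0 : ∀ r, 0 < r → 0 ≤ U r := by
    have : EqOn (fun r => max (U r) 0) U (Ioi 0) := by
      refine Measure.eqOn_open_of_ae_eq (μ := volume) ?_ isOpen_Ioi
        (hc.sup continuousOn_const) hc
      filter_upwards [hae, ae_restrict_mem measurableSet_Ioi] with r h1 h2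
      rw [← h1]
      exact max_eq_left (hu.nonneg r h2)
    intro r hr
    rw [← this hr]
    exact le_max_right _ _
  have hweq : (wOf z fun s => 4 * Real.pi * U s ^ 2) = wOf z fun s => 4 * Real.pi * u s ^ 2 := by
    funext r
    unfold wOf
    congr 1
    refine integral_congr_ae ?_
    filter_upwards [hae] with s hs
    rw [hs]
  have hG : ∀ᵐ r ∂(volume.restrict (Ioi (0 : ℝ))),
      coef A γ p z μ u r * u r = coef A γ p z μ U r * U r := by
    filter_upwards [hae] with s hs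
    unfold coef
    rw [hweq, hs]
  have hGc : ContinuousOn (fun r => coef A γ p z μ U r * U r) (Ioi 0) := by
    unfold coef
    rw [hweq]
    have h0 : ∀ r ∈ Ioi (0 : ℝ), id r ≠ 0 := fun r hr => ne_of_gt hr
    exact ((((continuousOn_const.mul ((hc.div continuousOn_id h0).rpow_const
      fun _ _ => Or.inr (by linarith))).sub (hw.div continuousOn_id h0)).add
        continuousOn_const).div_const A).mul hc
  have hsub : ∀ r, 0 < r → uIcc (1 : ℝ) r ⊆ Ioi 0 := fun r hr s hs =>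
    lt_of_lt_of_le (lt_min one_pos hr) hs.1
  refine ⟨U, fun r => c + ∫ s in (1 : ℝ)..r, coef A γ p z μ U s * U s,
    ⟨⟨hUm, hU0, ?_, ?_, fun h hh => ?_⟩, fun r hr => ?_, fun r hr => ?_⟩, hae⟩
  · refine hu.L2.congr ?_
    filter_upwards [hae] with s hs
    rw [hs]
  · refine hu.Lp.congr ?_
    filter_upwards [hae] with s hs
    rw [hs]
  · refine Eq.trans (integral_congr_ae ?_) ((hu.eq h hh).trans (integral_congr_ae ?_))
    · filter_upwards [hae] with s hs
      rw [hs]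
    · filter_upwards [hG] with s hs
      rw [hs]
  · refine (hd r hr).congr_deriv ?_
    congr 1
    refine intervalIntegral.integral_congr_ae ?_
    filter_upwards [(ae_restrict_iff' measurableSet_Ioi).1 hG] with s hs h1
    exact hs (hsub r hr (uIoc_subset_uIcc h1))
  · exact (intervalIntegral.integral_hasDerivAt_right ((hGc.mono (hsub r hr)).intervalIntegrable)
      (hGc.stronglyMeasurableAtFilter isOpen_Ioi r hr)
      (hGc.continuousAt (Ioi_mem_nhds hr))).const_add c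

end Pool.Agent.P.MP_3d36e1_mp.G
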